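import Pool.Agent.Helper73.HD.Base

/-!
Module MAXP: the maximum of `P_K` from Theorem A.
-/

set_option autoImplicit false

open Finset

namespace HD.Uni

theorem sum_cons' {d m : ℕ} (f : Ix d (m + 2) → ℝ) :
    ∑ a, f a = ∑ i, ∑ j, ∑ a : Ix d m, f (Fin.cons i (Fin.cons j a : Fin (m + 1) → Fin d)) := by
  rw [← (Fin.consEquiv (fun _ : Fin (m + 2) => Fin d)).sum_comp, Fintype.sum_prod_type]
  refine Finset.sum_congr rfl (fun i _ => ?_)
  rw [← (Fin.consEquiv (fun _ : Fin (m + 1) => Fin d)).sum_comp, Fintype.sum_prod_type]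
  rfl

theorem maxp (AD : ST_AD) (d : ℕ) (hd : 1 ≤ d) : ∀ (K : ℕ) (x : Ix d (2 * K) → ℂ),
    ‖PP d (2 * K) x‖ ^ 2 ≤ (qq d ^ K) ^ 2 * (∑ a, ‖x a‖ ^ 2) ^ d := by
  have hdp : (0 : ℝ) < d := by exact_mod_cast hd
  have hsd : 0 < Real.sqrt ((d : ℝ) ^ d) := Real.sqrt_pos.2 (by positivity)
  have hf : (0 : ℝ) < d.factorial := by exact_mod_cast d.factorial_pos
  have hqd : 0 < qq d := by unfold qq; positivity
  have hqsq : qq d ^ 2 * (d : ℝ) ^ d = (d.factorial : ℝ) ^ 2 := by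
    unfold qq
    rw [div_pow, Real.sq_sqrt (by positivity)]
    field_simp
  intro K
  induction K with
  | zero =>
    intro x
    have h1 : PP d (2 * 0) x = x (fun j => Fin.elim0 j) ^ d := by
      unfold PP
      rw [Fintype.sum_eq_single (fun j => Fin.elim0 j)]
      · have h2 : ∀ i : Fin d, x (fun j : Fin (2 * 0) => (Fin.elim0 j : Equiv.Perm (Fin d)) i) =
            x (fun j => Fin.elim0 j) := by
          intro i; congr 1; funext j; exact Fin.elim0 j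
        simp only [h2, Finset.prod_const, Finset.card_univ, Fintype.card_fin]
        rw [Finset.prod_eq_one (fun j _ => Fin.elim0 j), one_mul]
      · intro π hπ
        exact absurd (funext (fun j => Fin.elim0 j)) hπ
    have h2 : ∑ a : Ix d (2 * 0), ‖x a‖ ^ 2 = ‖x (fun j => Fin.elim0 j)‖ ^ 2 := by
      rw [Fintype.sum_eq_single (fun j => Fin.elim0 j)]
      intro a ha
      exact absurd (funext (fun j => Fin.elim0 j)) ha
    rw [h1, h2, norm_pow, pow_zero, one_pow, one_mul, ← pow_mul, ← pow_mul]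
    exact le_of_eq (congrArg _ (Nat.mul_comm d 2))
  | succ K ih =>
    intro x
    have hq : 0 < qq d ^ K := pow_pos hqd K
    have hev : Even (2 * K) := even_two_mul K
    set c : ℂ := (((qq d ^ K : ℝ) : ℂ))⁻¹ with hc
    have hcn : ‖c‖ = (qq d ^ K)⁻¹ := by
      rw [hc, norm_inv, Complex.norm_real, Real.norm_of_nonneg hq.le]
    have hsym : SymF (c • TF d (2 * K)) := by
      intro σ y
      rw [_root_.smul_apply, _root_.smul_apply, TF_sym d (2 * K) hev σ y]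
    have hunit : UnitF (c • TF d (2 * K)) := by
      intro y
      rw [_root_.smul_apply, norm_smul, hcn, TF_diag]
      have h1 := ih (fun a => y a)
      have h2 : ∑ a, ‖y a‖ ^ 2 = ‖y‖ ^ 2 := (EuclideanSpace.norm_sq_eq y).symm
      rw [h2] at h1
      have h3 : (‖y‖ ^ 2) ^ d = (‖y‖ ^ d) ^ 2 := by rw [← pow_mul, ← pow_mul, Nat.mul_comm 2 d]
      rw [h3, ← mul_pow] at h1
      have h4 := (sq_le_sq₀ (norm_nonneg _) (by positivity)).1 h1
      rw [inv_mul_le_iff₀ hq]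
      exact h4
    have h1 := AD (VV d (2 * K)) d (c • TF d (2 * K)) hsym hunit (bk x)
    have h2 : fdet (c • TF d (2 * K)) (bk x) = c * fdet (TF d (2 * K)) (bk x) := by
      unfold fdet
      rw [Finset.mul_sum]
      refine Finset.sum_congr rfl (fun σ _ => ?_)
      rw [_root_.smul_apply, smul_eq_mul]; ring
    have h3 : nsq (bk x) = ∑ a : Ix d (2 * (K + 1)), ‖x a‖ ^ 2 := by
      refine Eq.trans ?_ (sum_cons' (m := 2 * K) (fun a => ‖x a‖ ^ 2)).symm
      unfold nsq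
      refine Finset.sum_congr rfl (fun i _ => Finset.sum_congr rfl (fun j _ => ?_))
      rw [EuclideanSpace.norm_sq_eq]
      rfl
    have h4 : PP d (2 * (K + 1)) x = (d.factorial : ℂ) * fdet (TF d (2 * K)) (bk x) :=
      PP_bk d (2 * K) hev x
    rw [h2, h3, norm_mul, hcn, mul_pow, inv_pow] at h1
    rw [h4, norm_mul, Complex.norm_natCast, mul_pow, ← hqsq, pow_succ (qq d) K, mul_pow (qq d ^ K)]
    have hq2 : 0 < (qq d ^ K) ^ 2 := by positivity
    have h5 : ‖fdet (TF d (2 * K)) (bk x)‖ ^ 2 * (d : ℝ) ^ d ≤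
        (qq d ^ K) ^ 2 * (∑ a : Ix d (2 * (K + 1)), ‖x a‖ ^ 2) ^ d := by
      have h6 : (qq d ^ K) ^ 2 * (((qq d ^ K) ^ 2)⁻¹ * ‖fdet (TF d (2 * K)) (bk x)‖ ^ 2 * (d : ℝ) ^ d) ≤
        (qq d ^ K) ^ 2 * (∑ a : Ix d (2 * (K + 1)), ‖x a‖ ^ 2) ^ d :=
        mul_le_mul_of_nonneg_left h1 hq2.le
      have h7 : (qq d ^ K) ^ 2 * (((qq d ^ K) ^ 2)⁻¹ * ‖fdet (TF d (2 * K)) (bk x)‖ ^ 2 * (d : ℝ) ^ d) =
        ‖fdet (TF d (2 * K)) (bk x)‖ ^ 2 * (d : ℝ) ^ d := by
        field_simp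
      rwa [h7] at h6
    calc _ = qq d ^ 2 * (‖fdet (TF d (2 * K)) (bk x)‖ ^ 2 * (d : ℝ) ^ d) := by ring
      _ ≤ qq d ^ 2 * ((qq d ^ K) ^ 2 * (∑ a : Ix d (2 * (K + 1)), ‖x a‖ ^ 2) ^ d) :=
        mul_le_mul_of_nonneg_left h5 (by positivity)
      _ = _ := by ring

end HD.Uni

namespace HD

/-- MAXP -/
theorem st_MAXP' (AD : ST_AD) : ST_MAXP := fun d K x hd => Uni.maxp AD d hd K x

end HD
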