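import Pool.Agent.Helper73.HD.Rel
import Pool.Agent.Helper66.HD.Parts

/-!
Module UNIQ: a linear isometric family `W N` of vectors with `m = 2 K` replicas, `K ≥ 2`, which is a product over some
matching for every unitary matrix `N`, has a common factor.
-/

set_option autoImplicit false

open Finset

namespace HD.Uni

variable {d m : ℕ}

theorem exists_pair (hd : 3 ≤ d) {K : ℕ} (hK : 2 ≤ K)
    (W : Matrix (Fin d) (Fin d) ℂ →ₗ[ℂ] (Ix d m → ℂ))
    (hip : ∀ M N, ∑ a, star (W M a) * W N a = (M.conjTranspose * N).trace / d)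
    (hP : ∀ N ∈ Matrix.unitaryGroup (Fin d) ℂ, ∃ (e : Fin K × Fin 2 ≃ Fin m)
      (U : Fin K → Matrix (Fin d) (Fin d) ℂ), (∀ k, U k ∈ Matrix.unitaryGroup (Fin d) ℂ) ∧
      IsProd e U (W N)) :
    ∃ p q : Fin m, p ≠ q ∧ ∀ N, Es p q (W N) (W 1) := by
  obtain ⟨e, U, hU, h0⟩ := hP 1 (one_mem _)
  set H : (Fin d → ℂ) → Matrix (Fin d) (Fin d) ℂ := fun v => 1 - (2 : ℂ) • Matrix.vecMulVec v (star v)
    with hH
  have hdich : ∀ v : Fin d → ℂ, ∑ i, ‖v i‖ ^ 2 = 1 → ∀ k : Fin K,
      Es (e (k, 0)) (e (k, 1)) (W (H v)) (W 1) ∨ Fs (e (k, 0)) (e (k, 1)) (W (H v)) (W 1) := by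
    intro v hv k
    have hpen : ∀ t : ℕ, ∃ (e' : Fin K × Fin 2 ≃ Fin m) (U' : Fin K → Matrix (Fin d) (Fin d) ℂ) (c : ℂ),
        c ≠ 0 ∧ IsProd e' U' (fun a => c * (W 1 a + ((t : ℂ) * Complex.I) * W (H v) a)) := by
      intro t
      obtain ⟨e', U', -, hp⟩ := hP _ (Uni66.curve_unitary (H v) (Uni66.Hv_herm v) (Uni66.Hv_sq v hv) (t : ℝ))
      refine ⟨e', U', ((Real.sqrt (1 + (t : ℝ) ^ 2) : ℝ) : ℂ)⁻¹, ?_, ?_⟩
      · have : 0 < Real.sqrt (1 + (t : ℝ) ^ 2) := Real.sqrt_pos.2 (by positivity)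
        exact inv_ne_zero (by exact_mod_cast this.ne')
      · intro a
        rw [← hp a, map_smul, map_add, map_smul]
        simp only [Pi.smul_apply, Pi.add_apply, smul_eq_mul]
        push_cast
        rfl
    obtain ⟨h1, h2⟩ := pencil (by omega) hU h0 hpen k
    exact dicho (es_prod h0 k) h1 h2
  have hne : ∀ k : Fin K, e (k, 0) ≠ e (k, 1) := by
    intro k hh
    have := congrArg Prod.snd (e.injective hh)
    simp at this
  by_contra hcon
  push Not at hcon
  -- for every pair a reflection that moves its factor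
  have hex : ∀ k : Fin K, ∃ v : Fin d → ℂ, ∑ i, ‖v i‖ ^ 2 = 1 ∧
      ¬ Es (e (k, 0)) (e (k, 1)) (W (H v)) (W 1) := by
    intro k
    by_contra hc
    push Not at hc
    obtain ⟨N, hN⟩ := hcon _ _ (hne k)
    let S : Submodule ℂ (Matrix (Fin d) (Fin d) ℂ) :=
      { carrier := {N | Es (e (k, 0)) (e (k, 1)) (W N) (W 1)}
        add_mem' := by
          intro A B hA hB a a'
          have h1 := hA a a'
          have h2 := hB a a'
          simp only [map_add, Pi.add_apply]
          linear_combination h1 + h2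
        zero_mem' := by
          intro a a'
          simp
        smul_mem' := by
          intro c A hA a a'
          have h1 := hA a a'
          simp only [map_smul, Pi.smul_apply, smul_eq_mul]
          linear_combination c * h1 }
    have hS : S = ⊤ := Uni66.span_refl d S (es_prod h0 k) hc
    exact hN (by
      have : N ∈ S := by rw [hS]; trivial
      exact this)
  choose v hv hvE using hex
  let k0 : Fin K := ⟨0, by omega⟩
  let k1 : Fin K := ⟨1, by omega⟩
  have hk : k0 ≠ k1 := by simp [k0, k1]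
  obtain ⟨u, hu, hu0, hu1⟩ := Uni66.third d hd (v k0) (v k1)
  have hd0 : (d : ℂ) ≠ 0 := by exact_mod_cast (by omega : d ≠ 0)
  have hnot : ∀ k : Fin K, ∑ i, star (v k i) * u i = 0 →
      ¬ Es (e (k, 0)) (e (k, 1)) (W (H u)) (W 1) := by
    intro k hvu hE
    have hF := (hdich (v k) (hv k) k).resolve_left (hvE k)
    have h1 := inner_split hF hE
    have e1 : ((H (v k)).conjTranspose * H u).trace = (d : ℂ) - 4 := by
      have := Uni66.Hv_mul_trace _ _ (hv k) hu
      rw [hvu] at this
      rw [show (H (v k)).conjTranspose = H (v k) from Uni66.Hv_herm _]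
      exact this.trans (by ring)
    have e2 : ((1 : Matrix (Fin d) (Fin d) ℂ).conjTranspose * 1).trace = (d : ℂ) := by
      rw [mul_one, Matrix.conjTranspose_one, Matrix.trace_one, Fintype.card_fin]
    have e3 : ((H (v k)).conjTranspose * 1).trace = (d : ℂ) - 2 := by
      rw [show (H (v k)).conjTranspose = H (v k) from Uni66.Hv_herm _, mul_one]
      exact Uni66.Hv_trace _ (hv k)
    have e4 : ((1 : Matrix (Fin d) (Fin d) ℂ).conjTranspose * H u).trace = (d : ℂ) - 2 := by
      rw [Matrix.conjTranspose_one, one_mul]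
      exact Uni66.Hv_trace _ hu
    rw [hip, hip, hip, hip, e1, e2, e3, e4] at h1
    field_simp at h1
    have h2 : (4 : ℂ) = 0 := by linear_combination -h1
    norm_num at h2
  have hF0 := (hdich u hu k0).resolve_left (hnot k0 hu0)
  have hnek : ∀ i j : Fin 2, e (k0, i) ≠ e (k1, j) := by
    intro i j hh
    exact hk (congrArg Prod.fst (e.injective hh))
  exact hnot k1 hu1 (fs_es (hnek _ _) (hnek _ _) (hnek _ _) (hnek _ _) hF0 (es_prod h0 k1))

end HD.Uni
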