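import Pool.Agent.Helper73.HD.Dich
import Pool.Agent.Helper73.HD.Pair

/-!
Module UNIQ: the maximisers of `|P_K|` are the products over perfect matchings.
-/

set_option autoImplicit false

open Finset

namespace HD.Uni

/-- the matching of `2 K + 2` replicas obtained from a matching of `2 K` replicas and the pair `{0, 1}` -/
theorem exists_lift_equiv {K : ℕ} (e : Fin K × Fin 2 ≃ Fin (2 * K)) :
    ∃ e' : Fin (K + 1) × Fin 2 ≃ Fin (2 * K + 2), e' (0, 0) = 0 ∧ e' (0, 1) = 1 ∧
      ∀ k i, e' (Fin.succ k, i) = (e (k, i)).succ.succ := by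
  let f : Fin (K + 1) × Fin 2 → Fin (2 * K + 2) := fun t =>
    Fin.cases (motive := fun _ => Fin (2 * K + 2)) (if t.2 = 0 then 0 else 1)
      (fun k => (e (k, t.2)).succ.succ) t.1
  have hinj : Function.Injective f := by
    rintro ⟨k, i⟩ ⟨k', i'⟩ h
    induction k using Fin.cases with
    | zero =>
      induction k' using Fin.cases with
      | zero =>
        have h1 : (if i = 0 then (0 : Fin (2 * K + 2)) else 1) = if i' = 0 then 0 else 1 := h
        have : i = i' := by
          fin_cases i <;> fin_cases i' <;> simp_all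
        rw [this]
      | succ k' =>
        have h1 : (if i = 0 then (0 : Fin (2 * K + 2)) else 1) = (e (k', i')).succ.succ := h
        exfalso
        have h2 := congrArg Fin.val h1
        split_ifs at h2 <;> simp at h2
    | succ k =>
      induction k' using Fin.cases with
      | zero =>
        have h1 : (e (k, i)).succ.succ = (if i' = 0 then (0 : Fin (2 * K + 2)) else 1) := h
        exfalso
        have h2 := congrArg Fin.val h1
        split_ifs at h2 <;> simp at h2
      | succ k' =>
        have h1 : (e (k, i)).succ.succ = (e (k', i')).succ.succ := h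
        have h2 := e.injective (Fin.succ_injective _ (Fin.succ_injective _ h1))
        have h3 := congrArg Prod.fst h2
        have h4 := congrArg Prod.snd h2
        simp only at h3 h4
        rw [h3, h4]
  have hbij : Function.Bijective f := by
    rw [Fintype.bijective_iff_injective_and_card]
    refine ⟨hinj, ?_⟩
    simp [Fintype.card_prod]
    ring
  exact ⟨Equiv.ofBijective f hbij, rfl, rfl, fun k i => rfl⟩

theorem eq_cons {d m : ℕ} (a : Ix d (m + 2)) :
    a = Fin.cons (a 0) (Fin.cons (a 1) (fun j => a j.succ.succ) : Fin (m + 1) → Fin d) := by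
  funext j
  induction j using Fin.cases with
  | zero => rfl
  | succ j =>
    induction j using Fin.cases with
    | zero => rfl
    | succ j => rfl

theorem lift {d K : ℕ} {U0 : Matrix (Fin d) (Fin d) ℂ} (hU0 : U0 ∈ Matrix.unitaryGroup (Fin d) ℂ)
    {e0 : Fin K × Fin 2 ≃ Fin (2 * K)} {U1 : Fin K → Matrix (Fin d) (Fin d) ℂ}
    (hU1 : ∀ k, U1 k ∈ Matrix.unitaryGroup (Fin d) ℂ) {x : Ix d (2 * K + 2) → ℂ} {z : Ix d (2 * K) → ℂ}
    (hz : IsProd e0 U1 z) (hx : ∀ i j (a : Ix d (2 * K)),
      x (Fin.cons i (Fin.cons j a : Fin (2 * K + 1) → Fin d)) = U0 i j * z a / ((Real.sqrt d : ℝ) : ℂ)) :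
    ∃ (e : Fin (K + 1) × Fin 2 ≃ Fin (2 * (K + 1))) (U : Fin (K + 1) → Matrix (Fin d) (Fin d) ℂ),
      (∀ k, U k ∈ Matrix.unitaryGroup (Fin d) ℂ) ∧ IsProd (m := 2 * (K + 1)) e U x := by
  obtain ⟨e', h0, h1, h2⟩ := exists_lift_equiv e0
  refine ⟨e', Fin.cons U0 U1, ?_, ?_⟩
  · intro k
    induction k using Fin.cases with
    | zero => exact hU0
    | succ k => exact hU1 k
  · intro a
    have h3 : x a = U0 (a 0) (a 1) * z (fun j => a j.succ.succ) / ((Real.sqrt d : ℝ) : ℂ) := by
      conv_lhs => rw [eq_cons (m := 2 * K) a]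
      rw [hx]
    rw [h3, hz, Fin.prod_univ_succ, h0, h1]
    simp only [Fin.cons_zero, Fin.cons_succ, h2]
    rw [pow_succ]
    field_simp

theorem no2 {d m : ℕ} (hd : 2 ≤ d) (y : Fin d → Fin d → Ix d m → ℂ) (g : Fin d → Fin d → ℂ)
    (z : Ix d m → ℂ) (h : ∀ i j a, y i j a = g i j * z a)
    (hG : ∀ i j k l, ∑ a, star (y i j a) * y k l a = if i = k ∧ j = l then 1 / (d : ℂ) ^ 2 else 0) :
    False := by
  have hdc : (d : ℂ) ≠ 0 := by exact_mod_cast (by omega : d ≠ 0)
  have h1 : ∀ i j k l, (star (g i j) * g k l) * ∑ a, star (z a) * z a =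
      if i = k ∧ j = l then 1 / (d : ℂ) ^ 2 else 0 := by
    intro i j k l
    rw [← hG, Finset.mul_sum]
    refine Finset.sum_congr rfl (fun a _ => ?_)
    rw [h, h, star_mul']
    ring
  let o : Fin d := ⟨0, by omega⟩
  let i : Fin d := ⟨1, by omega⟩
  have hoi : o ≠ i := by simp [o, i]
  have a1 := h1 o o o o
  have a2 := h1 o i o i
  have a3 := h1 o o o i
  rw [if_pos ⟨rfl, rfl⟩] at a1 a2
  rw [if_neg (fun hh => hoi hh.2)] at a3
  have hne : 1 / (d : ℂ) ^ 2 ≠ 0 := div_ne_zero one_ne_zero (pow_ne_zero 2 hdc)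
  rcases mul_eq_zero.1 a3 with h3 | h3
  · rcases mul_eq_zero.1 h3 with h4 | h4
    · rw [h4, zero_mul, zero_mul] at a1
      exact hne a1.symm
    · rw [h4, mul_zero, zero_mul] at a2
      exact hne a2.symm
  · rw [h3, mul_zero] at a1
    exact hne a1.symm

/-- the exchange of `0` with `p + 2` and of `1` with `q + 2` -/
def sg {m : ℕ} (p q : Fin m) : Equiv.Perm (Fin (m + 2)) :=
  Equiv.swap 0 p.succ.succ * Equiv.swap 1 q.succ.succ

theorem sg_zero {m : ℕ} (p q : Fin m) : sg p q 0 = p.succ.succ := by
  have h1 : (0 : Fin (m + 2)) ≠ 1 := by simp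
  have h2 : (0 : Fin (m + 2)) ≠ q.succ.succ := (Fin.succ_ne_zero _).symm
  rw [sg, Equiv.Perm.mul_apply, Equiv.swap_apply_of_ne_of_ne h1 h2, Equiv.swap_apply_left]

theorem one_ne {m : ℕ} (q : Fin m) : (1 : Fin (m + 2)) ≠ q.succ.succ := by
  intro h
  have := congrArg Fin.val h
  simp at this

theorem sg_one {m : ℕ} (p q : Fin m) (hpq : p ≠ q) : sg p q 1 = q.succ.succ := by
  have h1 : q.succ.succ ≠ (0 : Fin (m + 2)) := Fin.succ_ne_zero _
  have h2 : q.succ.succ ≠ p.succ.succ := fun h =>
    hpq (Fin.succ_injective _ (Fin.succ_injective _ h)).symm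
  rw [sg, Equiv.Perm.mul_apply, Equiv.swap_apply_left, Equiv.swap_apply_of_ne_of_ne h1 h2]

theorem sg_p {m : ℕ} (p q : Fin m) (hpq : p ≠ q) : sg p q p.succ.succ = 0 := by
  have h1 : p.succ.succ ≠ (1 : Fin (m + 2)) := (one_ne p).symm
  have h2 : p.succ.succ ≠ q.succ.succ := fun h =>
    hpq (Fin.succ_injective _ (Fin.succ_injective _ h))
  rw [sg, Equiv.Perm.mul_apply, Equiv.swap_apply_of_ne_of_ne h1 h2, Equiv.swap_apply_right]

theorem sg_q {m : ℕ} (p q : Fin m) : sg p q q.succ.succ = 1 := by
  have h1 : (1 : Fin (m + 2)) ≠ 0 := by simp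
  rw [sg, Equiv.Perm.mul_apply, Equiv.swap_apply_right, Equiv.swap_apply_of_ne_of_ne h1 (one_ne p)]

theorem sg_ne {m : ℕ} (p q j : Fin m) (h1 : j ≠ p) (h2 : j ≠ q) : sg p q j.succ.succ = j.succ.succ := by
  have h3 : j.succ.succ ≠ q.succ.succ := fun h => h2 (Fin.succ_injective _ (Fin.succ_injective _ h))
  have h4 : j.succ.succ ≠ p.succ.succ := fun h => h1 (Fin.succ_injective _ (Fin.succ_injective _ h))
  rw [sg, Equiv.Perm.mul_apply, Equiv.swap_apply_of_ne_of_ne (one_ne j).symm h3,
    Equiv.swap_apply_of_ne_of_ne (Fin.succ_ne_zero _) h4]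

theorem sg_sg {m : ℕ} (p q : Fin m) (hpq : p ≠ q) (j : Fin (m + 2)) : sg p q (sg p q j) = j := by
  induction j using Fin.cases with
  | zero => rw [sg_zero, sg_p p q hpq]
  | succ j =>
    induction j using Fin.cases with
    | zero =>
      show sg p q (sg p q 1) = 1
      rw [sg_one p q hpq, sg_q]
    | succ j =>
      by_cases h1 : j = p
      · rw [h1, sg_p p q hpq, sg_zero]
      · by_cases h2 : j = q
        · rw [h2, sg_q, sg_one p q hpq]
        · rw [sg_ne p q j h1 h2, sg_ne p q j h1 h2]

theorem cons_sg {d m : ℕ} (p q : Fin m) (hpq : p ≠ q) (s r : Fin d) (b : Ix d m) :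
    (fun j => (Fin.cons s (Fin.cons r b : Fin (m + 1) → Fin d) : Fin (m + 2) → Fin d) (sg p q j)) =
      Fin.cons (b p) (Fin.cons (b q) (fun j => if j = p then s else if j = q then r else b j) :
        Fin (m + 1) → Fin d) := by
  funext j
  induction j using Fin.cases with
  | zero => rw [sg_zero]; rfl
  | succ j =>
    induction j using Fin.cases with
    | zero =>
      show (Fin.cons s (Fin.cons r b : Fin (m + 1) → Fin d) : Fin (m + 2) → Fin d) (sg p q 1) = _
      rw [sg_one p q hpq]; rfl
    | succ j =>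
      by_cases h1 : j = p
      · subst h1
        rw [sg_p j q hpq]
        simp
      · by_cases h2 : j = q
        · subst h2
          rw [sg_q]
          simp [h1]
        · rw [sg_ne p q j h1 h2]
          simp [h1, h2]

/-- the induction -/
theorem main (EQ : ST_EQ) (EQ2 : ST_EQ2) (MAXP : ST_MAXP) (WIG : ST_WIG) (d : ℕ) (hd : 3 ≤ d) :
    ∀ (K : ℕ) (x : Ix d (2 * (K + 1)) → ℂ), ∑ a, ‖x a‖ ^ 2 = 1 → ‖PP d (2 * (K + 1)) x‖ = qq d ^ (K + 1) →
    ∃ (e : Fin (K + 1) × Fin 2 ≃ Fin (2 * (K + 1))) (U : Fin (K + 1) → Matrix (Fin d) (Fin d) ℂ),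
      (∀ k, U k ∈ Matrix.unitaryGroup (Fin d) ℂ) ∧ IsProd e U x := by
  have hdp : (0 : ℝ) < d := by exact_mod_cast (by omega : 0 < d)
  have hs : 0 < Real.sqrt d := Real.sqrt_pos.2 hdp
  have hsc : ((Real.sqrt d : ℝ) : ℂ) ≠ 0 := by exact_mod_cast hs.ne'
  have hss : ((Real.sqrt d : ℝ) : ℂ) * ((Real.sqrt d : ℝ) : ℂ) = d := by
    rw [← Complex.ofReal_mul, Real.mul_self_sqrt hdp.le]; simp
  have hdc : (d : ℂ) ≠ 0 := by exact_mod_cast (by omega : d ≠ 0)
  intro K
  induction K with
  | zero =>
    intro x hx hP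
    rcases dich EQ EQ2 MAXP d 0 hd x hx hP with ⟨U, hU, z, hz1, hz2, hz3⟩ | ⟨hG, -⟩
    · -- the scalar is absorbed by `U`
      have hz : ‖z (fun j => Fin.elim0 j)‖ = 1 := by
        have h1 : ∑ a : Ix d (2 * 0), ‖z a‖ ^ 2 = ‖z (fun j => Fin.elim0 j)‖ ^ 2 := by
          rw [Fintype.sum_eq_single (fun j => Fin.elim0 j)]
          intro a ha
          exact absurd (funext (fun j => Fin.elim0 j)) ha
        rw [h1] at hz1
        exact (pow_eq_one_iff_of_nonneg (norm_nonneg _) two_ne_zero).1 hz1
      set c := z (fun j => Fin.elim0 j) with hc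
      have hcc : c * star c = 1 := by
        rw [Complex.star_def, Complex.mul_conj, Complex.normSq_eq_norm_sq, hz]; norm_num
      have hU' : c • U ∈ Matrix.unitaryGroup (Fin d) ℂ := by
        rw [Matrix.mem_unitaryGroup_iff] at hU ⊢
        rw [star_smul, smul_mul_smul_comm, hU, hcc, one_smul]
      refine lift (K := 0) hU' (e0 := Equiv.equivOfIsEmpty (Fin 0 × Fin 2) (Fin 0)) (U1 := fun k => Fin.elim0 k)
        (fun k => Fin.elim0 k) (z := fun _ => 1) ?_ ?_
      · intro a
        simp
      · intro i j a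
        rw [hz3]
        have h2 : z a = c := by
          rw [hc]; congr 1; funext j; exact Fin.elim0 j
        rw [h2, Matrix.smul_apply, smul_eq_mul]
        ring
    · exfalso
      refine no2 (m := 2 * 0) (by omega) (fun i j a => x (Fin.cons i (Fin.cons j a : Fin (2 * 0 + 1) → Fin d)))
        (fun i j => x (Fin.cons i (Fin.cons j (fun j => Fin.elim0 j) : Fin (2 * 0 + 1) → Fin d)))
        (fun _ => 1) ?_ hG
      intro i j a
      rw [mul_one]
      have : a = (fun j => Fin.elim0 j) := by funext j; exact Fin.elim0 j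
      rw [this]
  | succ K ih =>
    intro x hx hP
    -- the vectors of the first type
    have type1 : ∀ y : Ix d (2 * (K + 1) + 2) → ℂ, (∃ U ∈ Matrix.unitaryGroup (Fin d) ℂ,
        ∃ e : Ix d (2 * (K + 1)) → ℂ, ∑ a, ‖e a‖ ^ 2 = 1 ∧
        ‖PP d (2 * (K + 1)) e‖ = qq d ^ (K + 1) ∧ ∀ i j (a : Ix d (2 * (K + 1))),
        y (Fin.cons i (Fin.cons j a : Fin (2 * (K + 1) + 1) → Fin d)) =
          U i j * e a / ((Real.sqrt d : ℝ) : ℂ)) →
        ∃ (e : Fin (K + 1 + 1) × Fin 2 ≃ Fin (2 * (K + 1 + 1))) (U : Fin (K + 1 + 1) → Matrix (Fin d) (Fin d) ℂ),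
        (∀ k, U k ∈ Matrix.unitaryGroup (Fin d) ℂ) ∧ IsProd (m := 2 * (K + 1 + 1)) e U y := by
      rintro y ⟨U, hU, z, hz1, hz2, hz3⟩
      obtain ⟨e0, U1, hU1, hz⟩ := ih z hz1 hz2
      exact lift hU hU1 hz hz3
    rcases dich EQ EQ2 MAXP d (K + 1) hd x hx hP with h1 | ⟨hG, hN⟩
    · exact type1 x h1
    · -- second type
      let W : Matrix (Fin d) (Fin d) ℂ →ₗ[ℂ] (Ix d (2 * (K + 1)) → ℂ) :=
        { toFun := fun N a => ((Real.sqrt d : ℝ) : ℂ) *
            ∑ i, ∑ j, N i j * x (Fin.cons i (Fin.cons j a : Fin (2 * (K + 1) + 1) → Fin d))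
          map_add' := by
            intro A B
            funext a
            simp only [Pi.add_apply, Matrix.add_apply, add_mul, Finset.sum_add_distrib, mul_add]
          map_smul' := by
            intro c A
            funext a
            simp only [Pi.smul_apply, Matrix.smul_apply, smul_eq_mul, RingHom.id_apply, mul_assoc,
              ← Finset.mul_sum]
            ring }
      have hW : ∀ N a, W N a = ((Real.sqrt d : ℝ) : ℂ) *
            ∑ i, ∑ j, N i j * x (Fin.cons i (Fin.cons j a : Fin (2 * (K + 1) + 1) → Fin d)) :=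
        fun N a => rfl
      have hprod : ∀ N ∈ Matrix.unitaryGroup (Fin d) ℂ, ∃ (e : Fin (K + 1) × Fin 2 ≃ Fin (2 * (K + 1)))
          (U : Fin (K + 1) → Matrix (Fin d) (Fin d) ℂ),
          (∀ k, U k ∈ Matrix.unitaryGroup (Fin d) ℂ) ∧ IsProd e U (W N) := by
        intro N hN'
        obtain ⟨h1, h2⟩ := hN N hN'
        exact ih (W N) h1 h2
      rcases Nat.eq_zero_or_pos K with hK | hK
      · subst hK
        exact Uni66.four WIG d (by omega) x hprod
      · have hip : ∀ M N : Matrix (Fin d) (Fin d) ℂ,
            ∑ a, star (W M a) * W N a = (M.conjTranspose * N).trace / d := by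
          intro M N
          have h1 : ∀ a, star (W M a) * W N a = (d : ℂ) * ∑ i, ∑ j, ∑ k, ∑ l, (star (M i j) * N k l) *
              (star (x (Fin.cons i (Fin.cons j a : Fin (2 * (K + 1) + 1) → Fin d))) *
                x (Fin.cons k (Fin.cons l a : Fin (2 * (K + 1) + 1) → Fin d))) := by
            intro a
            rw [hW, hW, star_mul', Complex.star_def, Complex.conj_ofReal]
            have h2 : (starRingEnd ℂ) (∑ i, ∑ j, M i j *
                x (Fin.cons i (Fin.cons j a : Fin (2 * (K + 1) + 1) → Fin d))) =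
                ∑ i, ∑ j, star (M i j) *
                  star (x (Fin.cons i (Fin.cons j a : Fin (2 * (K + 1) + 1) → Fin d))) := by
              simp only [map_sum, map_mul, Complex.star_def]
            rw [h2]
            calc _ = (((Real.sqrt d : ℝ) : ℂ) * ((Real.sqrt d : ℝ) : ℂ)) *
                ((∑ i, ∑ j, star (M i j) *
                  star (x (Fin.cons i (Fin.cons j a : Fin (2 * (K + 1) + 1) → Fin d)))) *
                (∑ i, ∑ j, N i j * x (Fin.cons i (Fin.cons j a : Fin (2 * (K + 1) + 1) → Fin d)))) := by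
                  ring
              _ = _ := by
                  rw [hss]
                  congr 1
                  rw [Finset.sum_mul]
                  refine Finset.sum_congr rfl (fun i _ => ?_)
                  rw [Finset.sum_mul]
                  refine Finset.sum_congr rfl (fun j _ => ?_)
                  rw [Finset.mul_sum]
                  refine Finset.sum_congr rfl (fun k _ => ?_)
                  rw [Finset.mul_sum]
                  refine Finset.sum_congr rfl (fun l _ => ?_)
                  simp only [Complex.star_def]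
                  ring
          rw [Finset.sum_congr rfl (fun a _ => h1 a), ← Finset.mul_sum]
          have h3 : ∑ a : Ix d (2 * (K + 1)), ∑ i, ∑ j, ∑ k, ∑ l, (star (M i j) * N k l) *
              (star (x (Fin.cons i (Fin.cons j a : Fin (2 * (K + 1) + 1) → Fin d))) *
                x (Fin.cons k (Fin.cons l a : Fin (2 * (K + 1) + 1) → Fin d))) =
              ∑ i, ∑ j, ∑ k, ∑ l, (star (M i j) * N k l) * (if i = k ∧ j = l then 1 / (d : ℂ) ^ 2 else 0) := by
            rw [Finset.sum_comm]
            refine Finset.sum_congr rfl (fun i _ => ?_)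
            rw [Finset.sum_comm]
            refine Finset.sum_congr rfl (fun j _ => ?_)
            rw [Finset.sum_comm]
            refine Finset.sum_congr rfl (fun k _ => ?_)
            rw [Finset.sum_comm]
            refine Finset.sum_congr rfl (fun l _ => ?_)
            rw [← Finset.mul_sum, hG]
          rw [h3]
          have h4 : ∀ i j, ∑ k, ∑ l, (star (M i j) * N k l) * (if i = k ∧ j = l then 1 / (d : ℂ) ^ 2 else 0) =
              star (M i j) * N i j / (d : ℂ) ^ 2 := by
            intro i j
            rw [Finset.sum_eq_single i, Finset.sum_eq_single j]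
            · rw [if_pos ⟨rfl, rfl⟩]; ring
            · intro l _ hl
              rw [if_neg (fun h => hl h.2.symm), mul_zero]
            · intro h; exact absurd (Finset.mem_univ _) h
            · intro k _ hk
              refine Finset.sum_eq_zero (fun l _ => ?_)
              rw [if_neg (fun h => hk h.1.symm), mul_zero]
            · intro h; exact absurd (Finset.mem_univ _) h
          simp only [h4]
          rw [Matrix.trace]
          simp only [Matrix.diag_apply, Matrix.mul_apply, Matrix.conjTranspose_apply]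
          rw [Finset.sum_comm, Finset.mul_sum, Finset.sum_div]
          refine Finset.sum_congr rfl (fun j _ => ?_)
          rw [Finset.mul_sum, Finset.sum_div]
          refine Finset.sum_congr rfl (fun i _ => ?_)
          field_simp
        obtain ⟨p, q, hpq, hE⟩ := exists_pair hd (by omega : 2 ≤ K + 1) W hip hprod
        -- a nonzero entry of `W 1`
        have h1n : ∃ a0, W 1 a0 ≠ 0 := by
          by_contra hne
          push Not at hne
          have h1 := hip 1 1
          simp [hne, hdc] at h1
        obtain ⟨a0, ha0⟩ := h1n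
        have hx1 : ∀ i j a, ((Real.sqrt d : ℝ) : ℂ) *
            x (Fin.cons i (Fin.cons j a : Fin (2 * (K + 1) + 1) → Fin d)) = W (Matrix.single i j 1) a := by
          intro i j a
          rw [hW]
          congr 1
          rw [Finset.sum_eq_single i, Finset.sum_eq_single j]
          · simp
          · intro l _ hl
            rw [Matrix.single_apply_of_ne _ _ _ _ _ (fun h => hl h.2.symm), zero_mul]
          · intro h; exact absurd (Finset.mem_univ _) h
          · intro k _ hk
            refine Finset.sum_eq_zero (fun l _ => ?_)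
            rw [Matrix.single_apply_of_ne _ _ _ _ _ (fun h => hk h.1.symm), zero_mul]
          · intro h; exact absurd (Finset.mem_univ _) h
        have hx2 : ∀ i j (a : Ix d (2 * (K + 1))),
            x (Fin.cons i (Fin.cons j a : Fin (2 * (K + 1) + 1) → Fin d)) =
            (W 1 (mx p q a0 a) / W 1 a0) *
            x (Fin.cons i (Fin.cons j (mx p q a a0) : Fin (2 * (K + 1) + 1) → Fin d)) := by
          intro i j a
          have h1 := hE (Matrix.single i j 1) a a0
          rw [← hx1, ← hx1] at h1
          have h2 : ((Real.sqrt d : ℝ) : ℂ) * (x (Fin.cons i (Fin.cons j a : Fin (2 * (K + 1) + 1) → Fin d)) *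
              W 1 a0 - W 1 (mx p q a0 a) *
              x (Fin.cons i (Fin.cons j (mx p q a a0) : Fin (2 * (K + 1) + 1) → Fin d))) = 0 := by
            linear_combination h1
          have h3 := (mul_eq_zero.1 h2).resolve_left hsc
          rw [div_mul_eq_mul_div, eq_div_iff ha0]
          linear_combination h3
        -- permute
        let x' : Ix d (2 * (K + 1) + 2) → ℂ := fun a => x (fun j => a (sg p q j))
        have hx' : ∑ a, ‖x' a‖ ^ 2 = 1 := (Uni66.sum_perm d _ (sg p q) x).trans hx
        have hP' : ‖PP d (2 * (K + 1) + 2) x'‖ = qq d ^ (K + 1 + 1) := by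
          rw [← hP]
          exact congrArg _ (Uni66.PP_perm d _ (sg p q) x)
        rcases dich EQ EQ2 MAXP d (K + 1) hd x' hx' hP' with h1 | ⟨hG', -⟩
        · obtain ⟨e, U, hU, hpr⟩ := type1 x' h1
          exact ⟨e.trans (sg p q), U, hU, Uni66.prod_perm (sg p q) x e U hpr (sg_sg p q hpq)⟩
        · exfalso
          refine no2 (m := 2 * (K + 1)) (by omega)
            (fun i j a => x' (Fin.cons i (Fin.cons j a : Fin (2 * (K + 1) + 1) → Fin d)))
            (fun s r => W 1 (mx p q a0 (fun j => if j = p then s else r)) / W 1 a0)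
            (fun b => x (Fin.cons (b p) (Fin.cons (b q) (mx p q b a0) : Fin (2 * (K + 1) + 1) → Fin d)))
            ?_ hG'
          intro s r b
          show x (fun j => (Fin.cons s (Fin.cons r b : Fin (2 * (K + 1) + 1) → Fin d) :
            Fin (2 * (K + 1) + 2) → Fin d) (sg p q j)) = _
          refine (congrArg x (cons_sg (m := 2 * (K + 1)) p q hpq s r b)).trans ?_
          rw [hx2]
          have g1 : mx p q a0 (fun j => if j = p then s else if j = q then r else b j) =
              mx p q a0 (fun j => if j = p then s else r) := by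
            funext j
            by_cases h1 : j = p
            · simp [mx, h1]
            · by_cases h2 : j = q
              · simp [mx, h1, h2]
              · simp [mx, h1, h2]
          have g2 : mx p q (fun j => if j = p then s else if j = q then r else b j) a0 = mx p q b a0 := by
            funext j
            by_cases h1 : j = p
            · simp [mx, h1]
            · by_cases h2 : j = q
              · simp [mx, h1, h2]
              · simp [mx, h1, h2]
          rw [g1, g2]

end HD.Uni

namespace HD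

/-- UNIQ -/
theorem st_UNIQ (EQ : ST_EQ) (EQ2 : ST_EQ2) (MAXP : ST_MAXP) (WIG : ST_WIG) : ST_UNIQ := by
  intro d K x hd hK hx hP
  obtain ⟨K', rfl⟩ : ∃ K', K = K' + 1 := ⟨K - 1, by omega⟩
  exact Uni.main EQ EQ2 MAXP WIG d hd K' x hx hP

end HD
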