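import Pool.Agent.Helper87.HD.Stmts

/-!
Modules UNT and EXM: unitary mixing, completion to a unitary matrix, existence of a maximiser.
-/

set_option autoImplicit false

open Finset

namespace HD.Uni

theorem unit_sum {V : Type} [NormedAddCommGroup V] [InnerProductSpace ℂ V] {n : ℕ}
    {A : Matrix (Fin n) (Fin n) ℂ} (hA : A ∈ Matrix.unitaryGroup (Fin n) ℂ) (x : Fin n → V) :
    ∑ i, ‖∑ k, A i k • x k‖ ^ 2 = ∑ k, ‖x k‖ ^ 2 := by
  have h1 : star A * A = 1 := (Matrix.mem_unitaryGroup_iff').1 hA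
  have h2 : ∀ k l : Fin n, ∑ i, star (A i k) * A i l = if k = l then 1 else 0 := by
    intro k l
    have := congrFun (congrFun h1 k) l
    rw [Matrix.mul_apply, Matrix.one_apply] at this
    simpa [Matrix.star_apply] using this
  have h3 : ((∑ i, ‖∑ k, A i k • x k‖ ^ 2 : ℝ) : ℂ) = ((∑ k, ‖x k‖ ^ 2 : ℝ) : ℂ) := by
    push_cast
    have h4 : ∀ v : V, ((‖v‖ : ℝ) : ℂ) ^ 2 = inner ℂ v v := by
      intro v
      rw [inner_self_eq_norm_sq_to_K]; rfl
    simp_rw [h4]
    have h5 : ∀ i, inner ℂ (∑ k, A i k • x k) (∑ l, A i l • x l) =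
        ∑ k, ∑ l, (star (A i k) * A i l) * inner ℂ (x k) (x l) := by
      intro i
      rw [sum_inner]
      refine Finset.sum_congr rfl (fun k _ => ?_)
      rw [inner_sum]
      refine Finset.sum_congr rfl (fun l _ => ?_)
      rw [inner_smul_left, inner_smul_right, Complex.star_def]
      ring
    simp_rw [h5]
    rw [Finset.sum_comm]
    refine Finset.sum_congr rfl (fun k _ => ?_)
    rw [Finset.sum_comm]
    have h6 : ∀ l, ∑ i, (star (A i k) * A i l) * inner ℂ (x k) (x l) =
        (if k = l then 1 else 0) * inner ℂ (x k) (x l) := by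
      intro l
      rw [← Finset.sum_mul, h2]
    simp_rw [h6]
    simp
  exact_mod_cast h3

theorem unt1 : ∀ (V : Type) [NormedAddCommGroup V] [InnerProductSpace ℂ V] [FiniteDimensional ℂ V]
    (n : ℕ) (A B : Matrix (Fin n) (Fin n) ℂ) (X : Fin n → Fin n → V), A ∈ Matrix.unitaryGroup (Fin n) ℂ →
    B ∈ Matrix.unitaryGroup (Fin n) ℂ → nsq (mix A X B) = nsq X := by
  intro V _ _ _ n A B X hA hB
  have hBt : B.transpose ∈ Matrix.unitaryGroup (Fin n) ℂ := by
    rw [Matrix.mem_unitaryGroup_iff]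
    have h1 := (Matrix.mem_unitaryGroup_iff').1 hB
    have h2 : B.transpose * star B.transpose = (star B * B).transpose := by
      rw [Matrix.transpose_mul]
      congr 1
    rw [h2, h1, Matrix.transpose_one]
  have h1 : ∀ i j, mix A X B i j = ∑ k, A i k • ∑ l, B.transpose j l • X k l := by
    intro i j
    unfold mix
    refine Finset.sum_congr rfl (fun k _ => ?_)
    rw [Finset.smul_sum]
    refine Finset.sum_congr rfl (fun l _ => ?_)
    rw [smul_smul, Matrix.transpose_apply]
  unfold nsq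
  simp_rw [h1]
  rw [Finset.sum_comm]
  simp_rw [unit_sum hA]
  rw [Finset.sum_comm]
  refine Finset.sum_congr rfl (fun k _ => ?_)
  exact unit_sum hBt (fun l => X k l)

theorem unt2 (n : ℕ) (a : Fin (n + 1) → ℂ) (ha : ∑ i, ‖a i‖ ^ 2 = 1) :
    ∃ A ∈ Matrix.unitaryGroup (Fin (n + 1)) ℂ, ∀ i, A 0 i = a i := by
  let v : Fin (n + 1) → EuclideanSpace ℂ (Fin (n + 1)) := fun _ => WithLp.toLp 2 a
  have hn : ‖v 0‖ = 1 := by
    rw [EuclideanSpace.norm_eq]
    show Real.sqrt (∑ i, ‖a i‖ ^ 2) = 1
    rw [ha, Real.sqrt_one]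
  have ho : Orthonormal ℂ (({0} : Set (Fin (n + 1))).domRestrict v) := by
    refine ⟨fun i => ?_, fun i j hij => ?_⟩
    · exact hn
    · exact absurd (Subsingleton.elim i j) hij
  obtain ⟨b, hb⟩ := ho.exists_orthonormalBasis_extension_of_card_eq (by simp)
  refine ⟨fun i j => b i j, ?_, ?_⟩
  · rw [Matrix.mem_unitaryGroup_iff]
    ext i k
    rw [Matrix.mul_apply, Matrix.one_apply]
    have h1 := orthonormal_iff_ite.1 b.orthonormal k i
    rw [PiLp.inner_apply] at h1
    have h2 : ∑ j, b i j * star (b k j) = if k = i then 1 else 0 := by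
      rw [← h1]
      refine Finset.sum_congr rfl (fun j _ => ?_)
      rw [RCLike.inner_apply, Complex.star_def]
    simp only [Matrix.star_apply]
    rw [h2]
    by_cases h : i = k
    · rw [if_pos h, if_pos h.symm]
    · rw [if_neg h, if_neg (Ne.symm h)]
  · intro i
    show b 0 i = a i
    rw [hb 0 rfl]

theorem mult_cont {V : Type} [NormedAddCommGroup V] [InnerProductSpace ℂ V] [FiniteDimensional ℂ V]
    {n : ℕ} (Φ : MultilinearMap ℂ (fun _ : Fin n => V) ℂ) : Continuous Φ := by
  let b := Module.finBasis ℂ V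
  have h1 : ∀ v : Fin n → V, Φ v = ∑ r : Fin n → Fin (Module.finrank ℂ V),
      (∏ i, b.coord (r i) (v i)) • Φ (fun i => b (r i)) := by
    intro v
    have h2 : v = fun i => ∑ k, b.coord k (v i) • b k := by
      funext i
      exact (b.sum_repr (v i)).symm
    conv_lhs => rw [h2]
    rw [MultilinearMap.map_sum]
    refine Finset.sum_congr rfl (fun r _ => ?_)
    exact MultilinearMap.map_smul_univ Φ _ _
  have h3 : (Φ : (Fin n → V) → ℂ) = fun v => ∑ r : Fin n → Fin (Module.finrank ℂ V),
      (∏ i, b.coord (r i) (v i)) • Φ (fun i => b (r i)) := funext h1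
  rw [h3]
  refine continuous_finsetSum _ (fun r _ => ?_)
  simp only [smul_eq_mul]
  refine Continuous.mul ?_ continuous_const
  refine continuous_finsetProd _ (fun i _ => ?_)
  exact (LinearMap.continuous_of_finiteDimensional (b.coord (r i))).comp (continuous_apply i)

theorem exm : ST_EXM := by
  intro V _ _ _ n Φ hn hex
  have : ProperSpace V := FiniteDimensional.proper ℂ V
  have hc1 : Continuous (fun X : Fin n → Fin n → V => nsq X) := by
    unfold nsq
    fun_prop
  have hc2 : Continuous (fun X : Fin n → Fin n → V => ‖fdet Φ X‖) := by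
    unfold fdet
    refine continuous_norm.comp (continuous_finsetSum _ (fun σ _ => continuous_const.mul ?_))
    refine (mult_cont Φ).comp ?_
    fun_prop
  have hS : IsCompact {X : Fin n → Fin n → V | nsq X = n} := by
    refine Metric.isCompact_of_isClosed_isBounded (isClosed_eq hc1 continuous_const) ?_
    refine (Metric.isBounded_closedBall (x := (0 : Fin n → Fin n → V)) (r := Real.sqrt n)).subset ?_
    intro X hX
    rw [mem_closedBall_zero_iff, pi_norm_le_iff_of_nonneg (Real.sqrt_nonneg _)]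
    intro i
    rw [pi_norm_le_iff_of_nonneg (Real.sqrt_nonneg _)]
    intro j
    refine Real.le_sqrt_of_sq_le ?_
    have hX' : nsq X = n := hX
    rw [← hX']
    unfold nsq
    calc ‖X i j‖ ^ 2 ≤ ∑ j, ‖X i j‖ ^ 2 :=
          Finset.single_le_sum (f := fun j => ‖X i j‖ ^ 2) (fun j _ => by positivity) (Finset.mem_univ j)
      _ ≤ _ := Finset.single_le_sum (f := fun i => ∑ j, ‖X i j‖ ^ 2)
          (fun i _ => Finset.sum_nonneg (fun j _ => by positivity)) (Finset.mem_univ i)
  have hscale : ∀ (s : ℂ) (X : Fin n → Fin n → V), fdet Φ (fun i j => s • X i j) = s ^ n * fdet Φ X := by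
    intro s X
    unfold fdet
    rw [Finset.mul_sum]
    refine Finset.sum_congr rfl (fun σ _ => ?_)
    rw [MultilinearMap.map_smul_univ, Finset.prod_const, Finset.card_univ, Fintype.card_fin, smul_eq_mul]
    ring
  obtain ⟨X0, hX0⟩ := hex
  have hpos : 0 < nsq X0 := by
    rcases (show (0 : ℝ) ≤ nsq X0 by unfold nsq; positivity).eq_or_lt with h | h
    · exfalso
      apply hX0
      have hz : ∀ i j, X0 i j = 0 := by
        intro i j
        have h1 : ∀ i, ∑ j, ‖X0 i j‖ ^ 2 = 0 := by
          have h2 : ∑ i, ∑ j, ‖X0 i j‖ ^ 2 = 0 := h.symm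
          intro i
          exact (Finset.sum_eq_zero_iff_of_nonneg (fun i _ =>
            Finset.sum_nonneg (fun j _ => by positivity))).1 h2 i (Finset.mem_univ i)
        have h3 := (Finset.sum_eq_zero_iff_of_nonneg (fun j _ => by positivity)).1 (h1 i) j (Finset.mem_univ j)
        exact norm_eq_zero.1 (pow_eq_zero_iff two_ne_zero |>.1 h3)
      have h4 : X0 = fun i j => (0 : ℂ) • X0 i j := by
        funext i j; rw [hz i j, smul_zero]
      rw [h4, hscale, zero_pow (by omega), zero_mul]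
    · exact h
  have hnp : (0 : ℝ) < n := by exact_mod_cast hn
  set s : ℝ := Real.sqrt (n / nsq X0) with hs
  have hsp : 0 < s := Real.sqrt_pos.2 (by positivity)
  set Y0 : Fin n → Fin n → V := fun i j => (s : ℂ) • X0 i j with hY0
  have hY1 : nsq Y0 = n := by
    have h1 : nsq Y0 = s ^ 2 * nsq X0 := by
      unfold nsq
      rw [Finset.mul_sum]
      refine Finset.sum_congr rfl (fun i _ => ?_)
      rw [Finset.mul_sum]
      refine Finset.sum_congr rfl (fun j _ => ?_)
      rw [hY0]
      simp only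
      rw [norm_smul, Complex.norm_real, Real.norm_of_nonneg hsp.le, mul_pow]
    rw [h1, hs, Real.sq_sqrt (by positivity)]
    field_simp
  have hY2 : fdet Φ Y0 ≠ 0 := by
    rw [hY0, hscale]
    exact mul_ne_zero (pow_ne_zero _ (by exact_mod_cast hsp.ne')) hX0
  obtain ⟨X, hX, hmax⟩ := hS.exists_isMaxOn ⟨Y0, hY1⟩ hc2.continuousOn
  refine ⟨X, hX, ?_, fun Y hY => hmax hY⟩
  have h1 : ‖fdet Φ Y0‖ ≤ ‖fdet Φ X‖ := hmax (show Y0 ∈ {X | nsq X = n} from hY1)
  have h2 : 0 < ‖fdet Φ Y0‖ := norm_pos_iff.2 hY2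
  exact norm_pos_iff.1 (h2.trans_le h1)

end HD.Uni

namespace HD

theorem st_UNT' : ST_UNT := ⟨Uni.unt1, Uni.unt2⟩

theorem st_EXM' : ST_EXM := Uni.exm

end HD
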