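import Pool.Agent.Helper87.HD.Stmts

/-!
Module UNIQ, base file: the polarised form of `P` with `m` replicas as a symmetric multilinear form, the blocks of a
vector with `m + 2` replicas, and the two types of maximisers.
-/

set_option autoImplicit false

open Finset

namespace HD.Uni

/-- the space of the vectors with `m` replicas -/
abbrev VV (d m : ℕ) : Type := EuclideanSpace ℂ (Ix d m)

/-- coordinate functional -/
noncomputable def co {d m : ℕ} (a : Ix d m) : VV d m →ₗ[ℂ] ℂ where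
  toFun x := x a
  map_add' _ _ := rfl
  map_smul' _ _ := rfl

/-- the polarised form -/
noncomputable def TF (d m : ℕ) : MultilinearMap ℂ (fun _ : Fin d => VV d m) ℂ :=
  ∑ π : Fin m → Equiv.Perm (Fin d), (∏ j, ((Equiv.Perm.sign (π j) : ℤ) : ℂ)) •
    (MultilinearMap.mkPiAlgebra ℂ (Fin d) ℂ).compLinearMap (fun i => co (fun j => π j i))

theorem TF_apply (d m : ℕ) (y : Fin d → VV d m) :
    TF d m y = ∑ π : Fin m → Equiv.Perm (Fin d),
      ((∏ j, ((Equiv.Perm.sign (π j) : ℤ) : ℂ)) * ∏ i, y i (fun j => π j i)) := by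
  simp only [TF, _root_.sum_apply, _root_.smul_apply, smul_eq_mul,
    MultilinearMap.compLinearMap_apply, MultilinearMap.mkPiAlgebra_apply]
  rfl

theorem TF_diag (d m : ℕ) (y : VV d m) : TF d m (fun _ => y) = PP d m (fun a => y a) := by
  rw [TF_apply]; rfl

theorem TF_sym (d m : ℕ) (hm : Even m) : SymF (TF d m) := by
  intro σ x
  rw [TF_apply, TF_apply]
  -- reindex `π j ↦ π j * σ`
  let E : (Fin m → Equiv.Perm (Fin d)) ≃ (Fin m → Equiv.Perm (Fin d)) :=
    { toFun := fun π j => π j * σ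
      invFun := fun π j => π j * σ⁻¹
      left_inv := fun π => by funext j; simp
      right_inv := fun π => by funext j; simp }
  rw [← Equiv.sum_comp E]
  refine Finset.sum_congr rfl (fun π _ => ?_)
  have h1 : (∏ j, ((Equiv.Perm.sign (E π j) : ℤ) : ℂ)) = ∏ j, ((Equiv.Perm.sign (π j) : ℤ) : ℂ) := by
    have : ∀ j, ((Equiv.Perm.sign (E π j) : ℤ) : ℂ) =
        ((Equiv.Perm.sign (π j) : ℤ) : ℂ) * ((Equiv.Perm.sign σ : ℤ) : ℂ) := by
      intro j
      show ((Equiv.Perm.sign (π j * σ) : ℤ) : ℂ) = _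
      rw [Equiv.Perm.sign_mul]; push_cast; rfl
    simp_rw [this]
    rw [Finset.prod_mul_distrib, Finset.prod_const, Finset.card_univ, Fintype.card_fin]
    obtain ⟨k, hk⟩ := hm
    have h2 : ((Equiv.Perm.sign σ : ℤ) : ℂ) ^ m = 1 := by
      rcases Int.units_eq_one_or (Equiv.Perm.sign σ) with h | h
      · rw [h]; simp
      · rw [h, hk]
        push_cast
        rw [← two_mul, pow_mul]
        norm_num
    rw [h2, mul_one]
  rw [h1]
  congr 1
  exact Equiv.prod_comp σ (fun i => x i (fun j => π j i))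

/-- the blocks of a vector with `m + 2` replicas -/
noncomputable def bk {d m : ℕ} (x : Ix d (m + 2) → ℂ) (i j : Fin d) : VV d m :=
  WithLp.toLp 2 (fun a : Ix d m => x (Fin.cons i (Fin.cons j a : Fin (m + 1) → Fin d)))

theorem bk_apply {d m : ℕ} (x : Ix d (m + 2) → ℂ) (i j : Fin d) (a : Ix d m) :
    bk x i j a = x (Fin.cons i (Fin.cons j a : Fin (m + 1) → Fin d)) := rfl

theorem PP_bk (d m : ℕ) (hm : Even m) (x : Ix d (m + 2) → ℂ) :
    PP d (m + 2) x = (d.factorial : ℂ) * fdet (TF d m) (bk x) := by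
  have h1 : PP d (m + 2) x = ∑ σ : Equiv.Perm (Fin d), ∑ τ : Equiv.Perm (Fin d),
      ((Equiv.Perm.sign σ : ℤ) : ℂ) * ((Equiv.Perm.sign τ : ℤ) : ℂ) *
        TF d m (fun i => bk x (σ i) (τ i)) := by
    unfold PP
    rw [← (Fin.consEquiv (fun _ : Fin (m + 2) => Equiv.Perm (Fin d))).sum_comp, Fintype.sum_prod_type]
    refine Finset.sum_congr rfl (fun σ _ => ?_)
    rw [← (Fin.consEquiv (fun _ : Fin (m + 1) => Equiv.Perm (Fin d))).sum_comp, Fintype.sum_prod_type]
    refine Finset.sum_congr rfl (fun τ _ => ?_)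
    rw [TF_apply, Finset.mul_sum]
    refine Finset.sum_congr rfl (fun π _ => ?_)
    rw [Fin.prod_univ_succ, Fin.prod_univ_succ]
    have h2 : ∀ i : Fin d, x (fun j => (Fin.consEquiv (fun _ : Fin (m + 2) => Equiv.Perm (Fin d)))
        (σ, (Fin.consEquiv (fun _ : Fin (m + 1) => Equiv.Perm (Fin d))) (τ, π)) j i) =
        bk x (σ i) (τ i) (fun j => π j i) := by
      intro i
      rw [bk_apply]
      congr 1
      funext j
      refine Fin.cases ?_ (fun j => ?_) j
      · rfl
      · refine Fin.cases ?_ (fun j => ?_) j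
        · rfl
        · rfl
    simp_rw [h2]
    simp only [Fin.consEquiv_apply, Fin.cons_zero, Fin.cons_succ]
    ring
  rw [h1]
  have h3 : ∀ σ : Equiv.Perm (Fin d), ∑ τ : Equiv.Perm (Fin d),
      ((Equiv.Perm.sign σ : ℤ) : ℂ) * ((Equiv.Perm.sign τ : ℤ) : ℂ) *
        TF d m (fun i => bk x (σ i) (τ i)) = fdet (TF d m) (bk x) := by
    intro σ
    unfold fdet
    rw [← Equiv.sum_comp (Equiv.mulRight σ)]
    refine Finset.sum_congr rfl (fun τ _ => ?_)
    rw [Equiv.coe_mulRight, Equiv.Perm.sign_mul]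
    have h4 : TF d m (fun i => bk x (σ i) ((τ * σ) i)) = TF d m (fun i => bk x i (τ i)) :=
      TF_sym d m hm σ (fun i => bk x i (τ i))
    rw [h4]
    have h5 : ((Equiv.Perm.sign σ : ℤ) : ℂ) * ((Equiv.Perm.sign σ : ℤ) : ℂ) = 1 := by
      rcases Int.units_eq_one_or (Equiv.Perm.sign σ) with h | h <;> rw [h] <;> simp
    push_cast
    calc _ = (((Equiv.Perm.sign σ : ℤ) : ℂ) * ((Equiv.Perm.sign σ : ℤ) : ℂ)) *
        (((Equiv.Perm.sign τ : ℤ) : ℂ) * TF d m (fun i => bk x i (τ i))) := by ring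
      _ = _ := by rw [h5, one_mul]
  rw [Finset.sum_congr rfl (fun σ _ => h3 σ), Finset.sum_const, Finset.card_univ, Fintype.card_perm,
    Fintype.card_fin, nsmul_eq_mul]

end HD.Uni
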