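import Pool.Agent.Helper73.HD.Base

/-!
Module UNIQ: the two types of maximisers with `2 K' + 2` replicas.
-/

set_option autoImplicit false

open Finset

namespace HD.Uni

theorem sum_cons {d m : ℕ} (f : Ix d (m + 2) → ℝ) :
    ∑ a, f a = ∑ i, ∑ j, ∑ a : Ix d m, f (Fin.cons i (Fin.cons j a : Fin (m + 1) → Fin d)) := by
  rw [← (Fin.consEquiv (fun _ : Fin (m + 2) => Fin d)).sum_comp, Fintype.sum_prod_type]
  refine Finset.sum_congr rfl (fun i _ => ?_)
  rw [← (Fin.consEquiv (fun _ : Fin (m + 1) => Fin d)).sum_comp, Fintype.sum_prod_type]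
  rfl

theorem fdet_smul {V : Type} [NormedAddCommGroup V] [InnerProductSpace ℂ V] {n : ℕ}
    (Φ : MultilinearMap ℂ (fun _ : Fin n => V) ℂ) (c s : ℂ) (B : Fin n → Fin n → V) :
    fdet (c • Φ) (fun i j => s • B i j) = c * s ^ n * fdet Φ B := by
  unfold fdet
  rw [Finset.mul_sum]
  refine Finset.sum_congr rfl (fun σ _ => ?_)
  rw [_root_.smul_apply, MultilinearMap.map_smul_univ, Finset.prod_const, Finset.card_univ,
    Fintype.card_fin, smul_eq_mul, smul_eq_mul]
  ring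

theorem qq_pos (d : ℕ) (hd : 1 ≤ d) : 0 < qq d := by
  unfold qq
  have : (0 : ℝ) < d := by exact_mod_cast hd
  have : (0 : ℝ) < Real.sqrt ((d : ℝ) ^ d) := Real.sqrt_pos.2 (by positivity)
  have : (0 : ℝ) < d.factorial := by exact_mod_cast d.factorial_pos
  positivity

theorem unitF (MAXP : ST_MAXP) (d K : ℕ) (hd : 1 ≤ d) :
    UnitF ((((qq d ^ K : ℝ) : ℂ))⁻¹ • TF d (2 * K)) := by
  intro y
  have hq : 0 < qq d ^ K := pow_pos (qq_pos d hd) K
  rw [_root_.smul_apply, norm_smul, norm_inv, Complex.norm_real, Real.norm_of_nonneg hq.le, TF_diag]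
  have h1 := MAXP d K (fun a => y a) hd
  have h2 : ∑ a, ‖y a‖ ^ 2 = ‖y‖ ^ 2 := (EuclideanSpace.norm_sq_eq y).symm
  rw [h2] at h1
  have h3 : (‖y‖ ^ 2) ^ d = (‖y‖ ^ d) ^ 2 := by rw [← pow_mul, ← pow_mul, Nat.mul_comm 2 d]
  rw [h3, ← mul_pow] at h1
  have h4 := (sq_le_sq₀ (norm_nonneg _) (by positivity)).1 h1
  rw [inv_mul_le_iff₀ hq]
  exact h4

theorem dich (EQ : ST_EQ) (EQ2 : ST_EQ2) (MAXP : ST_MAXP) (d K : ℕ) (hd : 3 ≤ d)
    (x : Ix d (2 * K + 2) → ℂ) (hx : ∑ a, ‖x a‖ ^ 2 = 1) (hP : ‖PP d (2 * K + 2) x‖ = qq d ^ (K + 1)) :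
    (∃ U ∈ Matrix.unitaryGroup (Fin d) ℂ, ∃ e : Ix d (2 * K) → ℂ, ∑ a, ‖e a‖ ^ 2 = 1 ∧
      ‖PP d (2 * K) e‖ = qq d ^ K ∧ ∀ i j (a : Ix d (2 * K)),
        x (Fin.cons i (Fin.cons j a : Fin (2 * K + 1) → Fin d)) = U i j * e a / ((Real.sqrt d : ℝ) : ℂ)) ∨
    ((∀ i j k l, ∑ a : Ix d (2 * K), star (x (Fin.cons i (Fin.cons j a : Fin (2 * K + 1) → Fin d))) *
      x (Fin.cons k (Fin.cons l a : Fin (2 * K + 1) → Fin d)) =
        if i = k ∧ j = l then 1 / (d : ℂ) ^ 2 else 0) ∧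
      ∀ N ∈ Matrix.unitaryGroup (Fin d) ℂ,
        ∑ a : Ix d (2 * K), ‖((Real.sqrt d : ℝ) : ℂ) *
          ∑ i, ∑ j, N i j * x (Fin.cons i (Fin.cons j a : Fin (2 * K + 1) → Fin d))‖ ^ 2 = 1 ∧
        ‖PP d (2 * K) (fun a : Ix d (2 * K) => ((Real.sqrt d : ℝ) : ℂ) *
          ∑ i, ∑ j, N i j * x (Fin.cons i (Fin.cons j a : Fin (2 * K + 1) → Fin d)))‖ = qq d ^ K) := by
  have hd1 : 1 ≤ d := by omega
  have hdp : (0 : ℝ) < d := by exact_mod_cast hd1
  have hq : 0 < qq d ^ K := pow_pos (qq_pos d hd1) K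
  have hs : 0 < Real.sqrt d := Real.sqrt_pos.2 hdp
  have hsc : ((Real.sqrt d : ℝ) : ℂ) ≠ 0 := by exact_mod_cast hs.ne'
  have hss : ((Real.sqrt d : ℝ) : ℂ) * ((Real.sqrt d : ℝ) : ℂ) = d := by
    rw [← Complex.ofReal_mul, Real.mul_self_sqrt hdp.le]; simp
  have hev : Even (2 * K) := even_two_mul K
  set Φ : MultilinearMap ℂ (fun _ : Fin d => VV d (2 * K)) ℂ :=
    (((qq d ^ K : ℝ) : ℂ))⁻¹ • TF d (2 * K) with hΦ
  have hsym : SymF Φ := by
    intro σ y
    have := TF_sym d (2 * K) hev σ y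
    rw [hΦ, _root_.smul_apply, _root_.smul_apply, this]
  have hunit : UnitF Φ := unitF MAXP d K hd1
  set X : Fin d → Fin d → VV d (2 * K) := fun i j => ((Real.sqrt d : ℝ) : ℂ) • bk x i j with hX
  have hnsq : nsq X = d := by
    have h1 : ∀ i j, ‖X i j‖ ^ 2 = d * ∑ a : Ix d (2 * K),
        ‖x (Fin.cons i (Fin.cons j a : Fin (2 * K + 1) → Fin d))‖ ^ 2 := by
      intro i j
      rw [hX]
      simp only
      rw [norm_smul, mul_pow, Complex.norm_real, Real.norm_of_nonneg hs.le, Real.sq_sqrt hdp.le,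
        EuclideanSpace.norm_sq_eq]
      rfl
    unfold nsq
    simp_rw [h1, ← Finset.mul_sum]
    rw [← sum_cons (fun a => ‖x a‖ ^ 2), hx, mul_one]
  have hval : ∀ y : VV d (2 * K), ‖Φ (fun _ => y)‖ = (qq d ^ K)⁻¹ * ‖PP d (2 * K) (fun a => y a)‖ := by
    intro y
    rw [hΦ, _root_.smul_apply, norm_smul, norm_inv, Complex.norm_real, Real.norm_of_nonneg hq.le, TF_diag]
  have hdet : ‖fdet Φ X‖ = 1 := by
    have h1 := fdet_smul (TF d (2 * K)) (((qq d ^ K : ℝ) : ℂ))⁻¹ ((Real.sqrt d : ℝ) : ℂ) (bk x)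
    rw [← hΦ] at h1
    rw [show X = fun i j => ((Real.sqrt d : ℝ) : ℂ) • bk x i j from rfl, h1, norm_mul, norm_mul, norm_inv,
      norm_pow, Complex.norm_real, Complex.norm_real, Real.norm_of_nonneg hs.le, Real.norm_of_nonneg hq.le]
    have h2 := PP_bk d (2 * K) hev x
    have h3 : ‖PP d (2 * K + 2) x‖ = (d.factorial : ℝ) * ‖fdet (TF d (2 * K)) (bk x)‖ := by
      rw [h2, norm_mul, Complex.norm_natCast]
    rw [hP, pow_succ] at h3
    have hf : (0 : ℝ) < d.factorial := by exact_mod_cast d.factorial_pos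
    have h4 : Real.sqrt ((d : ℝ) ^ d) = Real.sqrt d ^ d := by
      rw [Real.sqrt_eq_iff_mul_self_eq (by positivity) (by positivity), ← mul_pow, Real.mul_self_sqrt hdp.le]
    have h5 : qq d * Real.sqrt d ^ d = d.factorial := by
      unfold qq
      rw [h4]
      field_simp
    have h6 : ‖fdet (TF d (2 * K)) (bk x)‖ = qq d ^ K * qq d / d.factorial := by
      rw [h3]; field_simp
    rw [h6, ← h5]
    have hqd := qq_pos d hd1
    field_simp
  rcases EQ (VV d (2 * K)) d Φ hd hsym hunit X hnsq hdet with ⟨U, hU, e, he1, he2, he3⟩ | hG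
  · left
    refine ⟨U, hU, fun a => e a, ?_, ?_, ?_⟩
    · rw [← EuclideanSpace.norm_sq_eq e, he1]; norm_num
    · rw [hval] at he2
      have := (inv_mul_eq_iff_eq_mul₀ hq.ne').1 he2
      rw [this, mul_one]
    · intro i j a
      have h1 := congrArg (fun v : VV d (2 * K) => v a) (he3 i j)
      have h2 : ((Real.sqrt d : ℝ) : ℂ) * x (Fin.cons i (Fin.cons j a : Fin (2 * K + 1) → Fin d)) =
          U i j * e a := h1
      rw [← h2]
      field_simp
  · right
    refine ⟨?_, ?_⟩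
    · intro i j k l
      have h1 := hG i j k l
      rw [hX] at h1
      simp only at h1
      rw [inner_smul_left, inner_smul_right, Complex.conj_ofReal, ← mul_assoc, hss, PiLp.inner_apply] at h1
      have h2 : ∑ a : Ix d (2 * K), inner ℂ (bk x i j a) (bk x k l a) =
          ∑ a : Ix d (2 * K), star (x (Fin.cons i (Fin.cons j a : Fin (2 * K + 1) → Fin d))) *
            x (Fin.cons k (Fin.cons l a : Fin (2 * K + 1) → Fin d)) := by
        refine Finset.sum_congr rfl (fun a _ => ?_)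
        rw [RCLike.inner_apply, mul_comm]
        rfl
      have h3 : ∀ S : ℂ, (d : ℂ) * S = (if i = k ∧ j = l then 1 / (d : ℂ) else 0) →
          S = if i = k ∧ j = l then 1 / (d : ℂ) ^ 2 else 0 := by
        intro S hS
        have hdc : (d : ℂ) ≠ 0 := by exact_mod_cast (by omega : d ≠ 0)
        split_ifs at hS ⊢ with h4
        · field_simp
          field_simp at hS
          linear_combination hS
        · exact (mul_eq_zero.1 hS).resolve_left hdc
      rw [← h2]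
      exact h3 _ h1
    · intro N hN
      obtain ⟨h1, h2⟩ := EQ2 (VV d (2 * K)) d Φ hd1 hsym hunit X hdet hG N hN
      have h3 : ∀ a : Ix d (2 * K), lin X N a = ((Real.sqrt d : ℝ) : ℂ) *
          ∑ i, ∑ j, N i j * x (Fin.cons i (Fin.cons j a : Fin (2 * K + 1) → Fin d)) := by
        intro a
        have h4 : lin X N a = co a (lin X N) := rfl
        rw [h4]
        unfold lin
        simp only [map_sum, map_smul, Finset.mul_sum]
        refine Finset.sum_congr rfl (fun i _ => Finset.sum_congr rfl (fun j _ => ?_))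
        show N i j * (((Real.sqrt d : ℝ) : ℂ) * x _) = _
        ring
      refine ⟨?_, ?_⟩
      · simp_rw [← h3]
        rw [← EuclideanSpace.norm_sq_eq (lin X N), h1]; norm_num
      · rw [hval] at h2
        have h5 := (inv_mul_eq_iff_eq_mul₀ hq.ne').1 h2
        rw [mul_one] at h5
        rw [← h5]
        congr 2
        funext a
        exact (h3 a).symm

end HD.Uni
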