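import Pool.Agent.Helper87.HD.Stmts

/-!
Module UNIQ: algebraic relations between vectors with `m` replicas (the same factor at the pair `{p, q}`, the same
factor off the pair `{p, q}`).
-/

set_option autoImplicit false

open Finset

namespace HD.Uni

variable {d m : ℕ}

/-- `a` with the coordinates `p`, `q` of `a'` -/
def mx (p q : Fin m) (a a' : Ix d m) : Ix d m := fun j => if j = p ∨ j = q then a' j else a j

theorem mx_symm (p q : Fin m) (a a' : Ix d m) : mx p q a a' = mx q p a a' := by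
  funext j; simp only [mx, or_comm]

theorem mx_mx (p q : Fin m) (a b : Ix d m) : mx p q (mx p q a b) (mx p q b a) = a := by
  funext j; simp only [mx]; split_ifs <;> rfl

theorem mx_left (p q : Fin m) (a b c : Ix d m) : mx p q (mx p q b a) c = mx p q b c := by
  funext j; simp only [mx]; split_ifs <;> rfl

theorem mx_right (p q : Fin m) (a b c : Ix d m) : mx p q b (mx p q c a) = mx p q b a := by
  funext j; simp only [mx]; split_ifs <;> rfl

theorem mx_self (p q : Fin m) (a : Ix d m) : mx p q a a = a := by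
  funext j; simp only [mx]; split_ifs <;> rfl

/-- `Y` and `Z` have the same factor at the pair `{p, q}` -/
def Es (p q : Fin m) (Y Z : Ix d m → ℂ) : Prop :=
  ∀ a a', Y a * Z a' = Y (mx p q a a') * Z (mx p q a' a)

/-- `Y` and `Z` have the same factor off the pair `{p, q}` -/
def Fs (p q : Fin m) (Y Z : Ix d m → ℂ) : Prop :=
  ∀ a a', Y a * Z a' = Y (mx p q a' a) * Z (mx p q a a')

/-- cross relation -/
def Cr (p q : Fin m) (Y Z : Ix d m → ℂ) : Prop :=
  ∀ a a', Y a * Z a' + Z a * Y a' =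
    Y (mx p q a a') * Z (mx p q a' a) + Z (mx p q a a') * Y (mx p q a' a)

theorem Es.symm' {p q : Fin m} {Y Z : Ix d m → ℂ} (h : Es p q Y Z) : Es q p Y Z := by
  intro a a'; rw [h a a', mx_symm p q, mx_symm p q]

/-- R1 -/
theorem es_prod {K : ℕ} {e : Fin K × Fin 2 ≃ Fin m} {U : Fin K → Matrix (Fin d) (Fin d) ℂ}
    {Y : Ix d m → ℂ} (h : IsProd e U Y) (k : Fin K) : Es (e (k, 0)) (e (k, 1)) Y Y := by
  intro a a'
  rw [h a, h a', h (mx _ _ a a'), h (mx _ _ a' a)]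
  have h1 : ∀ b b' : Ix d m, (∏ l, U l (b (e (l, 0))) (b (e (l, 1)))) *
      (∏ l, U l (b' (e (l, 0))) (b' (e (l, 1)))) =
      ∏ l, (U l (b (e (l, 0))) (b (e (l, 1))) * U l (b' (e (l, 0))) (b' (e (l, 1)))) :=
    fun b b' => Finset.prod_mul_distrib.symm
  rw [div_mul_div_comm, div_mul_div_comm, h1, h1]
  congr 1
  refine Finset.prod_congr rfl (fun l _ => ?_)
  by_cases hl : l = k
  · subst hl
    simp only [mx]
    simp [mul_comm]
  · have h2 : ∀ (i : Fin 2) (b b' : Ix d m), mx (e (k, 0)) (e (k, 1)) b b' (e (l, i)) = b (e (l, i)) := by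
      intro i b b'
      simp only [mx]
      rw [if_neg]
      rintro (h3 | h3)
      · exact hl (congrArg Prod.fst (e.injective h3))
      · exact hl (congrArg Prod.fst (e.injective h3))
    rw [h2, h2, h2, h2]

theorem unit_rank (hd : 2 ≤ d) {U : Matrix (Fin d) (Fin d) ℂ} (hU : U ∈ Matrix.unitaryGroup (Fin d) ℂ)
    (h : ∀ s r s' r', U s r * U s' r' = U s' r * U s r') : False := by
  have h1 : U * star U = 1 := (Matrix.mem_unitaryGroup_iff).1 hU
  have h2 : ∀ s s' : Fin d, ∑ r, U s r * star (U s' r) = if s = s' then 1 else 0 := by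
    intro s s'
    have := congrFun (congrFun h1 s) s'
    rw [Matrix.mul_apply, Matrix.one_apply] at this
    simpa [Matrix.star_apply] using this
  have hs : (⟨0, by omega⟩ : Fin d) ≠ ⟨1, by omega⟩ := by simp
  set s : Fin d := ⟨0, by omega⟩ with hsd
  set s' : Fin d := ⟨1, by omega⟩ with hsd'
  have h3 : ∀ r', U s' r' = 0 := by
    intro r'
    have h4 : (∑ r, U s r * star (U s r)) * U s' r' = (∑ r, U s' r * star (U s r)) * U s r' := by
      rw [Finset.sum_mul, Finset.sum_mul]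
      refine Finset.sum_congr rfl (fun r _ => ?_)
      calc _ = star (U s r) * (U s r * U s' r') := by ring
        _ = _ := by rw [h]; ring
    rw [h2, h2, if_pos rfl, if_neg (Ne.symm hs), one_mul, zero_mul] at h4
    exact h4
  have h5 := h2 s' s'
  rw [if_pos rfl] at h5
  simp [h3] at h5

theorem exists_ne {U : Matrix (Fin d) (Fin d) ℂ} (hd : 2 ≤ d) (hU : U ∈ Matrix.unitaryGroup (Fin d) ℂ) :
    ∃ s r, U s r ≠ 0 := by
  by_contra hne
  push Not at hne
  exact unit_rank hd hU (fun s r s' r' => by rw [hne, hne s' r]; simp)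

/-- R2 -/
theorem es_partner (hd : 2 ≤ d) {K : ℕ} {e : Fin K × Fin 2 ≃ Fin m}
    {U : Fin K → Matrix (Fin d) (Fin d) ℂ} (hU : ∀ k, U k ∈ Matrix.unitaryGroup (Fin d) ℂ)
    {Y : Ix d m → ℂ} (h : IsProd e U Y) (k : Fin K) (q : Fin m) (hq : q ≠ e (k, 0))
    (hE : Es (e (k, 0)) q Y Y) : q = e (k, 1) := by
  by_contra hne
  choose s r hsr using fun l => exists_ne hd (hU l)
  let b : Fin d → Fin d → Ix d m := fun s' r' j =>
    if (e.symm j).1 = k then (if (e.symm j).2 = 0 then s' else r')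
    else (if (e.symm j).2 = 0 then s (e.symm j).1 else r (e.symm j).1)
  have hb0 : ∀ s' r', b s' r' (e (k, 0)) = s' := by intro s' r'; simp [b]
  have hb1 : ∀ s' r', b s' r' (e (k, 1)) = r' := by intro s' r'; simp [b]
  have hbl : ∀ s' r' l i, l ≠ k → b s' r' (e (l, i)) = if i = 0 then s l else r l := by
    intro s' r' l i hl; simp [b, hl]
  have hY : ∀ s' r', Y (b s' r') = U k s' r' * ((∏ l ∈ univ.erase k, U l (s l) (r l)) /
      ((Real.sqrt d : ℝ) : ℂ) ^ K) := by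
    intro s' r'
    rw [h, ← Finset.mul_prod_erase univ _ (Finset.mem_univ k), hb0, hb1, mul_div_assoc]
    congr 2
    refine Finset.prod_congr rfl (fun l hl => ?_)
    have hl' := (Finset.mem_erase.1 hl).1
    rw [hbl _ _ l 0 hl', hbl _ _ l 1 hl']
    simp
  have hC : (∏ l ∈ univ.erase k, U l (s l) (r l)) / ((Real.sqrt d : ℝ) : ℂ) ^ K ≠ 0 := by
    refine div_ne_zero (Finset.prod_ne_zero_iff.2 (fun l _ => hsr l)) (pow_ne_zero _ ?_)
    have : 0 < Real.sqrt d := Real.sqrt_pos.2 (by exact_mod_cast (by omega : 0 < d))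
    exact_mod_cast this.ne'
  have hmx : ∀ s₁ r₁ s₂ r₂, mx (e (k, 0)) q (b s₁ r₁) (b s₂ r₂) = b s₂ r₁ := by
    intro s₁ r₁ s₂ r₂
    funext j
    obtain ⟨⟨l, i⟩, rfl⟩ := e.surjective j
    have hq' : ∀ l i, e (l, i) = q → l ≠ k := by
      intro l i hli hl
      subst hl
      fin_cases i
      · exact hq hli.symm
      · exact hne hli.symm
    by_cases hl : l = k
    · subst hl
      fin_cases i
      · simp [mx, b]
      · have h1 : ¬ (e (l, 1) = e (l, 0) ∨ e (l, 1) = q) := by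
          rintro (h2 | h2)
          · have := congrArg Prod.snd (e.injective h2); simp at this
          · exact hq' _ _ h2 rfl
        simp only [mx]
        have h3 : ((fun i => i) (⟨1, by omega⟩ : Fin 2)) = 1 := rfl
        show (if e (l, 1) = e (l, 0) ∨ e (l, 1) = q then b s₂ r₂ (e (l, 1)) else b s₁ r₁ (e (l, 1))) = _
        rw [if_neg h1]
        show b s₁ r₁ (e (l, 1)) = b s₂ r₁ (e (l, 1))
        rw [hb1, hb1]
    · simp only [mx]
      rw [hbl s₂ r₁ l i hl, hbl s₂ r₂ l i hl, hbl s₁ r₁ l i hl]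
      split_ifs <;> rfl
  refine unit_rank hd (hU k) (fun s₁ r₁ s₂ r₂ => ?_)
  have h1 := hE (b s₁ r₁) (b s₂ r₂)
  rw [hmx, hmx, hY, hY, hY, hY] at h1
  have h2 : (U k s₁ r₁ * U k s₂ r₂ - U k s₂ r₁ * U k s₁ r₂) *
      (((∏ l ∈ univ.erase k, U l (s l) (r l)) / ((Real.sqrt d : ℝ) : ℂ) ^ K) *
      ((∏ l ∈ univ.erase k, U l (s l) (r l)) / ((Real.sqrt d : ℝ) : ℂ) ^ K)) = 0 := by
    linear_combination h1
  rcases mul_eq_zero.1 h2 with h3 | h3
  · exact sub_eq_zero.1 h3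
  · exact absurd h3 (mul_ne_zero hC hC)

/-- R4 -/
theorem dicho {p q : Fin m} {Y0 Y1 : Ix d m → ℂ} (h0 : Es p q Y0 Y0) (h1 : Es p q Y1 Y1)
    (hc : Cr p q Y0 Y1) : Es p q Y1 Y0 ∨ Fs p q Y1 Y0 := by
  by_cases hz0 : ∀ a, Y0 a = 0
  · left; intro a a'; rw [hz0, hz0]; simp
  by_cases hz1 : ∀ a, Y1 a = 0
  · left; intro a a'; rw [hz1, hz1]; simp
  push Not at hz0 hz1
  obtain ⟨c0, hc0⟩ := hz0
  obtain ⟨c1, hc1⟩ := hz1
  have e0 : ∀ a b, Y0 (mx p q b a) * Y0 c0 = Y0 (mx p q b c0) * Y0 (mx p q c0 a) := by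
    intro a b; rw [h0, mx_left, mx_right]
  have e1 : ∀ a b, Y1 (mx p q b a) * Y1 c1 = Y1 (mx p q b c1) * Y1 (mx p q c1 a) := by
    intro a b; rw [h1, mx_left, mx_right]
  have key : ∀ a a' b b', (Y0 (mx p q c0 a) * Y1 (mx p q c1 a') - Y0 (mx p q c0 a') * Y1 (mx p q c1 a)) *
      (Y0 (mx p q b c0) * Y1 (mx p q b' c1) - Y1 (mx p q b c1) * Y0 (mx p q b' c0)) = 0 := by
    intro a a' b b'
    have h2 := hc (mx p q b a) (mx p q b' a')
    rw [mx_left, mx_left, mx_right, mx_right] at h2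
    have h3 : (Y0 (mx p q b a) * Y0 c0) * (Y1 (mx p q b' a') * Y1 c1) +
        (Y1 (mx p q b a) * Y1 c1) * (Y0 (mx p q b' a') * Y0 c0) =
        (Y0 (mx p q b a') * Y0 c0) * (Y1 (mx p q b' a) * Y1 c1) +
        (Y1 (mx p q b a') * Y1 c1) * (Y0 (mx p q b' a) * Y0 c0) := by
      linear_combination (Y0 c0 * Y1 c1) * h2
    rw [e0, e0, e0, e0, e1, e1, e1, e1] at h3
    linear_combination h3
  by_cases hu : ∀ a a', Y0 (mx p q c0 a) * Y1 (mx p q c1 a') - Y0 (mx p q c0 a') * Y1 (mx p q c1 a) = 0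
  · left
    intro a a'
    have f0 : ∀ a, Y0 a * Y0 c0 = Y0 (mx p q a c0) * Y0 (mx p q c0 a) := fun a => h0 a c0
    have f1 : ∀ a, Y1 a * Y1 c1 = Y1 (mx p q a c1) * Y1 (mx p q c1 a) := fun a => h1 a c1
    have h4 : (Y1 a * Y1 c1) * (Y0 a' * Y0 c0) =
        (Y1 (mx p q a a') * Y1 c1) * (Y0 (mx p q a' a) * Y0 c0) := by
      rw [f1, f0, e1, e0]
      linear_combination -(Y1 (mx p q a c1) * Y0 (mx p q a' c0)) * hu a a'
    have h5 : (Y1 a * Y0 a' - Y1 (mx p q a a') * Y0 (mx p q a' a)) * (Y1 c1 * Y0 c0) = 0 := by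
      linear_combination h4
    rcases mul_eq_zero.1 h5 with h6 | h6
    · exact sub_eq_zero.1 h6
    · exact absurd h6 (mul_ne_zero hc1 hc0)
  · right
    push Not at hu
    obtain ⟨s, s', hs⟩ := hu
    have hw : ∀ b b', Y0 (mx p q b c0) * Y1 (mx p q b' c1) - Y1 (mx p q b c1) * Y0 (mx p q b' c0) = 0 := by
      intro b b'
      rcases mul_eq_zero.1 (key s s' b b') with h6 | h6
      · exact absurd h6 hs
      · exact h6
    intro a a'
    have f0 : ∀ a, Y0 a * Y0 c0 = Y0 (mx p q a c0) * Y0 (mx p q c0 a) := fun a => h0 a c0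
    have f1 : ∀ a, Y1 a * Y1 c1 = Y1 (mx p q a c1) * Y1 (mx p q c1 a) := fun a => h1 a c1
    have h4 : (Y1 a * Y1 c1) * (Y0 a' * Y0 c0) =
        (Y1 (mx p q a' a) * Y1 c1) * (Y0 (mx p q a a') * Y0 c0) := by
      rw [f1, f0, e1, e0]
      linear_combination -(Y1 (mx p q c1 a) * Y0 (mx p q c0 a')) * hw a a'
    have h5 : (Y1 a * Y0 a' - Y1 (mx p q a' a) * Y0 (mx p q a a')) * (Y1 c1 * Y0 c0) = 0 := by
      linear_combination h4
    rcases mul_eq_zero.1 h5 with h6 | h6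
    · exact sub_eq_zero.1 h6
    · exact absurd h6 (mul_ne_zero hc1 hc0)

/-- R5, first part -/
theorem fs_es {p q p' q' : Fin m} (h1 : p ≠ p') (h2 : p ≠ q') (h3 : q ≠ p') (h4 : q ≠ q')
    {Y Y0 : Ix d m → ℂ} (hF : Fs p q Y Y0) (h0 : Es p' q' Y0 Y0) : Es p' q' Y Y0 := by
  by_cases hz0 : ∀ a, Y0 a = 0
  · intro a a'; rw [hz0, hz0]; simp
  push Not at hz0
  obtain ⟨c, hc⟩ := hz0
  intro a a'
  have g1 : mx p q c (mx p' q' a a') = mx p q c a := by
    funext j; simp only [mx]; split_ifs with h5 h6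
    · rcases h5 with rfl | rfl <;> rcases h6 with rfl | rfl <;> simp_all
    · rfl
    · rfl
  have g2 : mx p' q' (mx p q a c) a' = mx p q (mx p' q' a a') c := by
    funext j; simp only [mx]; split_ifs with h5 h6 <;> try rfl
    rcases h5 with rfl | rfl <;> rcases h6 with rfl | rfl <;> simp_all
  have g3 : mx p' q' a' (mx p q a c) = mx p' q' a' a := by
    funext j; simp only [mx]; split_ifs with h5 h6
    · rcases h5 with rfl | rfl <;> rcases h6 with rfl | rfl <;> simp_all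
    · rfl
    · rfl
  have e1 : Y a * Y0 c = Y (mx p q c a) * Y0 (mx p q a c) := hF a c
  have e2 : Y (mx p' q' a a') * Y0 c = Y (mx p q c a) * Y0 (mx p q (mx p' q' a a') c) := by
    rw [hF (mx p' q' a a') c, g1]
  have e3 : Y0 (mx p q a c) * Y0 a' = Y0 (mx p q (mx p' q' a a') c) * Y0 (mx p' q' a' a) := by
    rw [h0 (mx p q a c) a', g2, g3]
  have h5 : (Y a * Y0 a' - Y (mx p' q' a a') * Y0 (mx p' q' a' a)) * Y0 c = 0 := by
    linear_combination Y0 a' * e1 - Y0 (mx p' q' a' a) * e2 + Y (mx p q c a) * e3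
  rcases mul_eq_zero.1 h5 with h6 | h6
  · exact sub_eq_zero.1 h6
  · exact absurd h6 hc

/-- R5 -/
theorem par {p q : Fin m} {Y Y0 : Ix d m → ℂ} (hF : Fs p q Y Y0) (hE : Es p q Y Y0) (a a' : Ix d m) :
    Y a * Y0 a' = Y a' * Y0 a := by
  rw [hE a a', hF (mx p q a a') (mx p q a' a), mx_mx, mx_mx]

/-- the exchange of the coordinates `p`, `q` of two vectors of indices -/
def mxE (p q : Fin m) : Ix d m × Ix d m ≃ Ix d m × Ix d m where
  toFun t := (mx p q t.1 t.2, mx p q t.2 t.1)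
  invFun t := (mx p q t.1 t.2, mx p q t.2 t.1)
  left_inv t := by simp only [mx_mx]
  right_inv t := by simp only [mx_mx]

/-- R6 -/
theorem inner_split {p q : Fin m} {Yv Yw Y0 : Ix d m → ℂ} (hF : Fs p q Yv Y0) (hE : Es p q Yw Y0) :
    (∑ a, star (Yv a) * Yw a) * (∑ a, star (Y0 a) * Y0 a) =
      (∑ a, star (Yv a) * Y0 a) * (∑ a, star (Y0 a) * Yw a) := by
  have h1 : ∀ f g : Ix d m → ℂ, (∑ a, f a) * (∑ a, g a) = ∑ t : Ix d m × Ix d m, f t.1 * g t.2 := by
    intro f g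
    rw [Fintype.sum_prod_type, Finset.sum_mul_sum]
  rw [mul_comm (∑ a, star (Yv a) * Y0 a), h1, h1,
    ← Equiv.sum_comp (mxE p q) (fun t => star (Y0 t.1) * Yw t.1 * (star (Yv t.2) * Y0 t.2))]
  refine Finset.sum_congr rfl (fun t _ => ?_)
  obtain ⟨a, a'⟩ := t
  show star (Yv a) * Yw a * (star (Y0 a') * Y0 a') = star (Y0 (mx p q a a')) * Yw (mx p q a a') *
    (star (Yv (mx p q a' a)) * Y0 (mx p q a' a))
  have e1 : star (Yv a) * star (Y0 a') = star (Yv (mx p q a' a)) * star (Y0 (mx p q a a')) := by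
    have := congrArg star (hF a a')
    simpa [mul_comm] using this
  have e2 := hE a a'
  calc _ = (star (Yv a) * star (Y0 a')) * (Yw a * Y0 a') := by ring
    _ = _ := by rw [e1, e2]; ring

/-- a quadratic polynomial with infinitely many zeros -/
theorem quad_zero {A B C : ℂ} {s : Set ℕ} (hs : s.Infinite) (h : ∀ t ∈ s, A + B * (t : ℂ) + C * (t : ℂ) ^ 2 = 0) :
    A = 0 ∧ B = 0 ∧ C = 0 := by
  let P : Polynomial ℂ := Polynomial.C A + Polynomial.C B * Polynomial.X + Polynomial.C C * Polynomial.X ^ 2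
  have hP : P = 0 := by
    refine Polynomial.eq_zero_of_infinite_isRoot P ?_
    refine Set.Infinite.mono (s := (fun t : ℕ => (t : ℂ)) '' s) ?_ ?_
    · rintro _ ⟨t, ht, rfl⟩
      show P.IsRoot _
      simp only [P, Polynomial.IsRoot.def, Polynomial.eval_add, Polynomial.eval_mul, Polynomial.eval_C,
        Polynomial.eval_X, Polynomial.eval_pow]
      exact h t ht
    · exact hs.image (Nat.cast_injective.injOn)
  have c0 : P.coeff 0 = A := by simp [P]
  have c1 : P.coeff 1 = B := by simp [P, Polynomial.coeff_C]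
  have c2 : P.coeff 2 = C := by simp [P, Polynomial.coeff_X]
  rw [hP] at c0 c1 c2
  simp only [Polynomial.coeff_zero] at c0 c1 c2
  exact ⟨c0.symm, c1.symm, c2.symm⟩

/-- R3 -/
theorem pencil (hd : 2 ≤ d) {K : ℕ} {e : Fin K × Fin 2 ≃ Fin m}
    {U : Fin K → Matrix (Fin d) (Fin d) ℂ} (hU : ∀ k, U k ∈ Matrix.unitaryGroup (Fin d) ℂ)
    {Y0 Y1 : Ix d m → ℂ} (h0 : IsProd e U Y0)
    (h : ∀ t : ℕ, ∃ (e' : Fin K × Fin 2 ≃ Fin m) (U' : Fin K → Matrix (Fin d) (Fin d) ℂ) (c : ℂ), c ≠ 0 ∧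
      IsProd e' U' (fun a => c * (Y0 a + ((t : ℂ) * Complex.I) * Y1 a))) (k : Fin K) :
    Es (e (k, 0)) (e (k, 1)) Y1 Y1 ∧ Cr (e (k, 0)) (e (k, 1)) Y0 Y1 := by
  choose e' U' c hc hp using h
  obtain ⟨f, hf⟩ := Finite.exists_infinite_fiber e'
  have hs : (e' ⁻¹' {f}).Infinite := Set.infinite_coe_iff.1 hf
  have hrel : ∀ l : Fin K, Es (f (l, 0)) (f (l, 1)) Y0 Y0 ∧ Es (f (l, 0)) (f (l, 1)) Y1 Y1 ∧
      Cr (f (l, 0)) (f (l, 1)) Y0 Y1 := by
    intro l
    have h1 : ∀ a a', (Y0 a * Y0 a' - Y0 (mx (f (l, 0)) (f (l, 1)) a a') * Y0 (mx (f (l, 0)) (f (l, 1)) a' a)) = 0 ∧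
      Complex.I * ((Y0 a * Y1 a' + Y1 a * Y0 a') - (Y0 (mx (f (l, 0)) (f (l, 1)) a a') * Y1 (mx (f (l, 0)) (f (l, 1)) a' a) +
        Y1 (mx (f (l, 0)) (f (l, 1)) a a') * Y0 (mx (f (l, 0)) (f (l, 1)) a' a))) = 0 ∧
      -(Y1 a * Y1 a' - Y1 (mx (f (l, 0)) (f (l, 1)) a a') * Y1 (mx (f (l, 0)) (f (l, 1)) a' a)) = 0 := by
      intro a a'
      refine quad_zero hs (fun t ht => ?_)
      have h2 : e' t = f := ht
      have h3 := es_prod (hp t) l
      rw [h2] at h3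
      have h4 := h3 a a'
      have h5 : (c t * c t) * ((Y0 a + ((t : ℂ) * Complex.I) * Y1 a) * (Y0 a' + ((t : ℂ) * Complex.I) * Y1 a') -
        (Y0 (mx (f (l, 0)) (f (l, 1)) a a') + ((t : ℂ) * Complex.I) * Y1 (mx (f (l, 0)) (f (l, 1)) a a')) *
        (Y0 (mx (f (l, 0)) (f (l, 1)) a' a) + ((t : ℂ) * Complex.I) * Y1 (mx (f (l, 0)) (f (l, 1)) a' a))) = 0 := by
        linear_combination h4
      have h6 := (mul_eq_zero.1 h5).resolve_left (mul_ne_zero (hc t) (hc t))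
      have hI : Complex.I ^ 2 = -1 := Complex.I_sq
      linear_combination h6 - ((t : ℂ) ^ 2 * (Y1 a * Y1 a' - Y1 (mx (f (l, 0)) (f (l, 1)) a a') *
        Y1 (mx (f (l, 0)) (f (l, 1)) a' a))) * hI
    refine ⟨fun a a' => sub_eq_zero.1 (h1 a a').1, fun a a' => ?_, fun a a' => ?_⟩
    · exact sub_eq_zero.1 (neg_eq_zero.1 (h1 a a').2.2)
    · exact sub_eq_zero.1 ((mul_eq_zero.1 (h1 a a').2.1).resolve_left Complex.I_ne_zero)
  -- the pair of `e (k, 0)` in `f`
  obtain ⟨⟨l, i⟩, hli⟩ := f.surjective (e (k, 0))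
  obtain ⟨g0, g1, g2⟩ := hrel l
  have hne : f (l, 0) ≠ f (l, 1) := by
    intro hh
    have := congrArg Prod.snd (f.injective hh)
    simp at this
  fin_cases i
  · have hli' : f (l, 0) = e (k, 0) := hli
    rw [hli'] at g0 g1 g2 hne
    have hp2 := es_partner hd hU h0 k (f (l, 1)) hne.symm g0
    rw [hp2] at g1 g2
    exact ⟨g1, g2⟩
  · have hli' : f (l, 1) = e (k, 0) := hli
    rw [hli'] at g0 g1 g2 hne
    have hp2 := es_partner hd hU h0 k (f (l, 0)) hne g0.symm'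
    rw [hp2] at g1 g2
    refine ⟨g1.symm', fun a a' => ?_⟩
    rw [g2 a a', mx_symm (e (k, 1)) (e (k, 0)), mx_symm (e (k, 1)) (e (k, 0))]

end HD.Uni
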